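import Mathlib

set_option autoImplicit false

namespace Pool.Agent.H136.HalinBase

/-- plane binary trees: every internal node has two ordered children -/
inductive BT : Type
  | leaf : BT
  | node : BT → BT → BT

/-- the vertices (internal nodes and leaves) of a plane binary tree -/
def Vt : BT → Type
  | .leaf => Unit
  | .node l r => Option (Vt l ⊕ Vt r)

/-- the root -/
def top : (t : BT) → Vt t
  | .leaf => ()
  | .node _ _ => none

/-- the leftmost leaf -/
def first : (t : BT) → Vt t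
  | .leaf => ()
  | .node l _ => some (Sum.inl (first l))

/-- the rightmost leaf -/
def last : (t : BT) → Vt t
  | .leaf => ()
  | .node _ r => some (Sum.inr (last r))

/-- the edges (in one direction each): parent to child, and from each leaf to the next one -/
def Ed : (t : BT) → Vt t → Vt t → Prop
  | .leaf, _, _ => False
  | .node l _, none, some (Sum.inl x) => x = top l
  | .node _ r, none, some (Sum.inr x) => x = top r
  | .node l _, some (Sum.inl x), some (Sum.inl y) => Ed l x y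
  | .node _ r, some (Sum.inr x), some (Sum.inr y) => Ed r x y
  | .node l r, some (Sum.inl x), some (Sum.inr y) => x = last l ∧ y = first r
  | .node _ _, _, _ => False

/-- adjacency in the tree together with the path through its leaves -/
def Adj (t : BT) (x y : Vt t) : Prop := Ed t x y ∨ Ed t y x

/-- edges of the Halin graph obtained by joining the roots of `s` and `t` by an edge, with the
leaf cycle `first s, …, last s, first t, …, last t` -/
def hEd (s t : BT) : Vt s ⊕ Vt t → Vt s ⊕ Vt t → Prop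
  | Sum.inl x, Sum.inl y => Ed s x y
  | Sum.inr x, Sum.inr y => Ed t x y
  | Sum.inl x, Sum.inr y =>
      (x = top s ∧ y = top t) ∨ (x = last s ∧ y = first t) ∨ (x = first s ∧ y = last t)
  | Sum.inr _, Sum.inl _ => False

/-- the cubic Halin graph of the plane tree whose edge `e` splits it into `s` and `t` -/
def halin (s t : BT) : SimpleGraph (Vt s ⊕ Vt t) := SimpleGraph.fromRel (hEd s t)

def isLeaf : BT → Prop
  | .leaf => True
  | .node _ _ => False

lemma Adj.symm {t : BT} {x y : Vt t} (h : Adj t x y) : Adj t y x := Or.symm h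

lemma adj_none_inl {l r : BT} {x : Vt l} :
    Adj (.node l r) none (some (Sum.inl x)) ↔ x = top l := by simp [Adj, Ed]
lemma adj_none_inr {l r : BT} {x : Vt r} :
    Adj (.node l r) none (some (Sum.inr x)) ↔ x = top r := by simp [Adj, Ed]
lemma adj_inl_none {l r : BT} {x : Vt l} :
    Adj (.node l r) (some (Sum.inl x)) none ↔ x = top l := by simp [Adj, Ed]
lemma adj_inr_none {l r : BT} {x : Vt r} :
    Adj (.node l r) (some (Sum.inr x)) none ↔ x = top r := by simp [Adj, Ed]
lemma adj_none_none {l r : BT} : ¬ Adj (.node l r) none none := by simp [Adj, Ed]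
lemma adj_inl_inl {l r : BT} {x y : Vt l} :
    Adj (.node l r) (some (Sum.inl x)) (some (Sum.inl y)) ↔ Adj l x y := by simp [Adj, Ed]
lemma adj_inr_inr {l r : BT} {x y : Vt r} :
    Adj (.node l r) (some (Sum.inr x)) (some (Sum.inr y)) ↔ Adj r x y := by simp [Adj, Ed]
lemma adj_inl_inr {l r : BT} {x : Vt l} {y : Vt r} :
    Adj (.node l r) (some (Sum.inl x)) (some (Sum.inr y)) ↔ x = last l ∧ y = first r := by
  simp [Adj, Ed]
lemma adj_inr_inl {l r : BT} {x : Vt l} {y : Vt r} :
    Adj (.node l r) (some (Sum.inr y)) (some (Sum.inl x)) ↔ x = last l ∧ y = first r := by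
  simp [Adj, Ed]

lemma not_adj_leaf {x y : Vt .leaf} : ¬ Adj .leaf x y := by simp [Adj, Ed]

/-- `c` is a labelling such that adjacent vertices have `d`-related labels and the neighbours of
each vertex have distinct labels -/
structure TT (d : ℕ → ℕ → Prop) (t : BT) (c : Vt t → ℕ) : Prop where
  lt : ∀ v, c v < 15
  adj : ∀ x y, Adj t x y → d (c x) (c y)
  nb : ∀ x y z, Adj t x y → Adj t x z → y ≠ z → c y ≠ c z

/-- the colouring of `node l r` from a colour of the root and colourings of the subtrees -/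
def glue {l r : BT} (a : ℕ) (c1 : Vt l → ℕ) (c2 : Vt r → ℕ) : Vt (.node l r) → ℕ
  | none => a
  | some (Sum.inl x) => c1 x
  | some (Sum.inr x) => c2 x

lemma glue_TT {d : ℕ → ℕ → Prop} (hd : ∀ x y, d x y → d y x) {l r : BT} {a : ℕ} {c1 : Vt l → ℕ}
    {c2 : Vt r → ℕ} (ha : a < 15) (h1 : TT d l c1) (h2 : TT d r c2)
    (e1 : d a (c1 (top l))) (e2 : d a (c2 (top r))) (e3 : c1 (top l) ≠ c2 (top r))
    (e4 : ∀ y, Adj l (top l) y → c1 y ≠ a) (e5 : ∀ y, Adj r (top r) y → c2 y ≠ a)
    (e6 : d (c1 (last l)) (c2 (first r)))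
    (e7 : ∀ y, Adj l (last l) y → c1 y ≠ c2 (first r))
    (e8 : ∀ y, Adj r (first r) y → c2 y ≠ c1 (last l))
    (e9 : top l = last l → a ≠ c2 (first r)) (e10 : top r = first r → a ≠ c1 (last l)) :
    TT d (.node l r) (glue a c1 c2) := by
  refine ⟨?_, ?_, ?_⟩
  · rintro (_ | x | x)
    · exact ha
    · exact h1.lt x
    · exact h2.lt x
  · rintro (_ | x | x) (_ | y | y) h
    · exact absurd h adj_none_none
    · rw [adj_none_inl] at h; subst h; exact e1
    · rw [adj_none_inr] at h; subst h; exact e2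
    · rw [adj_inl_none] at h; subst h; exact hd _ _ e1
    · rw [adj_inl_inl] at h; exact h1.adj x y h
    · rw [adj_inl_inr] at h; obtain ⟨rfl, rfl⟩ := h; exact e6
    · rw [adj_inr_none] at h; subst h; exact hd _ _ e2
    · rw [adj_inr_inl] at h; obtain ⟨rfl, rfl⟩ := h; exact hd _ _ e6
    · rw [adj_inr_inr] at h; exact h2.adj x y h
  · rintro (_ | x | x) (_ | y | y) (_ | z | z) h h' hne
    · exact absurd h adj_none_none
    · exact absurd h adj_none_none
    · exact absurd h adj_none_none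
    · exact absurd h' adj_none_none
    · rw [adj_none_inl] at h h'; subst h h'; exact absurd rfl hne
    · rw [adj_none_inl] at h; rw [adj_none_inr] at h'; subst h h'; exact e3
    · exact absurd h' adj_none_none
    · rw [adj_none_inr] at h; rw [adj_none_inl] at h'; subst h h'; exact e3.symm
    · rw [adj_none_inr] at h h'; subst h h'; exact absurd rfl hne
    -- x in the left subtree
    · exact absurd rfl hne
    · rw [adj_inl_none] at h; rw [adj_inl_inl] at h'; subst h; exact (e4 z h').symm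
    · rw [adj_inl_none] at h; rw [adj_inl_inr] at h'; obtain ⟨h1', rfl⟩ := h'
      exact e9 (h.symm.trans h1')
    · rw [adj_inl_inl] at h; rw [adj_inl_none] at h'; subst h'; exact e4 y h
    · rw [adj_inl_inl] at h h'
      exact h1.nb x y z h h' (fun e => hne (by rw [e]))
    · rw [adj_inl_inl] at h; rw [adj_inl_inr] at h'; obtain ⟨rfl, rfl⟩ := h'; exact e7 y h
    · rw [adj_inl_inr] at h; rw [adj_inl_none] at h'; obtain ⟨h1', rfl⟩ := h
      exact (e9 (h'.symm.trans h1')).symm
    · rw [adj_inl_inr] at h; rw [adj_inl_inl] at h'; obtain ⟨rfl, rfl⟩ := h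
      exact (e7 z h').symm
    · rw [adj_inl_inr] at h h'; obtain ⟨rfl, rfl⟩ := h; obtain ⟨_, rfl⟩ := h'
      exact absurd rfl hne
    -- x in the right subtree
    · exact absurd rfl hne
    · rw [adj_inr_none] at h; rw [adj_inr_inl] at h'; obtain ⟨rfl, h1'⟩ := h'
      exact e10 (h.symm.trans h1')
    · rw [adj_inr_none] at h; rw [adj_inr_inr] at h'; subst h; exact (e5 z h').symm
    · rw [adj_inr_inl] at h; rw [adj_inr_none] at h'; obtain ⟨rfl, h1'⟩ := h
      exact (e10 (h'.symm.trans h1')).symm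
    · rw [adj_inr_inl] at h h'; obtain ⟨rfl, rfl⟩ := h; obtain ⟨rfl, _⟩ := h'
      exact absurd rfl hne
    · rw [adj_inr_inl] at h; rw [adj_inr_inr] at h'; obtain ⟨rfl, rfl⟩ := h
      exact (e8 z h').symm
    · rw [adj_inr_inr] at h; rw [adj_inr_none] at h'; subst h'; exact e5 y h
    · rw [adj_inr_inr] at h; rw [adj_inr_inl] at h'; obtain ⟨rfl, rfl⟩ := h'; exact e8 y h
    · rw [adj_inr_inr] at h h'
      exact h2.nb x y z h h' (fun e => hne (by rw [e]))

lemma top_ne_last {t : BT} (h : ¬ isLeaf t) : top t ≠ last t := by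
  cases t with
  | leaf => exact absurd trivial h
  | node l r => exact (Option.some_ne_none (Sum.inr (last r))).symm

lemma top_ne_first {t : BT} (h : ¬ isLeaf t) : top t ≠ first t := by
  cases t with
  | leaf => exact absurd trivial h
  | node l r => exact (Option.some_ne_none (Sum.inl (first l))).symm

lemma first_ne_last {t : BT} (h : ¬ isLeaf t) : first t ≠ last t := by
  cases t with
  | leaf => exact absurd trivial h
  | node l r =>
      intro e
      have := Option.some.inj e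
      exact Sum.inl_ne_inr this

/-- `t` has a labelling with root label `r` and prescribed labels and neighbour labels at the root
and at the two extreme leaves -/
def Real (d : ℕ → ℕ → Prop) (t : BT) (r c1 c2 ax ay az bx b1 b2 : ℕ) : Prop :=
  ∃ c : Vt t → ℕ, TT d t c ∧
    (c (top t) = r ∧ ∀ w, Adj t (top t) w → c w = c1 ∨ c w = c2) ∧
    (c (first t) = ax ∧ ∀ w, Adj t (first t) w → c w = ay ∨ c w = az) ∧
    (c (last t) = bx ∧ ∀ w, Adj t (last t) w → c w = b1 ∨ c w = b2)

lemma Real.map {d : ℕ → ℕ → Prop} {t : BT} {r c1 c2 ax ay az bx b1 b2 : ℕ}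
    (h : Real d t r c1 c2 ax ay az bx b1 b2) (g : ℕ → ℕ) (g1 : ∀ x, x < 15 → g x < 15)
    (g2 : ∀ x y, x < 15 → y < 15 → d x y → d (g x) (g y))
    (g3 : ∀ x y, x < 15 → y < 15 → x ≠ y → g x ≠ g y) :
    Real d t (g r) (g c1) (g c2) (g ax) (g ay) (g az) (g bx) (g b1) (g b2) := by
  obtain ⟨c, hc, ⟨h1, h1'⟩, ⟨h2, h2'⟩, ⟨h3, h3'⟩⟩ := h
  refine ⟨fun v => g (c v), ⟨fun v => g1 _ (hc.lt v), fun x y hxy =>
    g2 _ _ (hc.lt x) (hc.lt y) (hc.adj x y hxy), fun x y z hy hz hne =>
    g3 _ _ (hc.lt y) (hc.lt z) (hc.nb x y z hy hz hne)⟩,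
    ⟨by simp only [h1], ?_⟩, ⟨by simp only [h2], ?_⟩, ⟨by simp only [h3], ?_⟩⟩
  · intro w hw; rcases h1' w hw with h | h <;> simp [h]
  · intro w hw; rcases h2' w hw with h | h <;> simp [h]
  · intro w hw; rcases h3' w hw with h | h <;> simp [h]

lemma Real.swapC {d : ℕ → ℕ → Prop} {t : BT} {r c1 c2 ax ay az bx b1 b2 : ℕ}
    (h : Real d t r c1 c2 ax ay az bx b1 b2) : Real d t r c2 c1 ax ay az bx b1 b2 := by
  obtain ⟨c, hc, ⟨h1, h1'⟩, h2, h3⟩ := h
  exact ⟨c, hc, ⟨h1, fun w hw => (h1' w hw).symm⟩, h2, h3⟩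

lemma Real.swapA {d : ℕ → ℕ → Prop} {t : BT} {r c1 c2 ax ay az bx b1 b2 : ℕ}
    (h : Real d t r c1 c2 ax ay az bx b1 b2) : Real d t r c1 c2 ax az ay bx b1 b2 := by
  obtain ⟨c, hc, h1, ⟨h2, h2'⟩, h3⟩ := h
  exact ⟨c, hc, h1, ⟨h2, fun w hw => (h2' w hw).symm⟩, h3⟩

lemma Real.swapB {d : ℕ → ℕ → Prop} {t : BT} {r c1 c2 ax ay az bx b1 b2 : ℕ}
    (h : Real d t r c1 c2 ax ay az bx b1 b2) : Real d t r c1 c2 ax ay az bx b2 b1 := by
  obtain ⟨c, hc, h1, h2, ⟨h3, h3'⟩⟩ := h
  exact ⟨c, hc, h1, h2, ⟨h3, fun w hw => (h3' w hw).symm⟩⟩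

/-- the labelling of a single leaf -/
lemma leaf_TT (d : ℕ → ℕ → Prop) (x : ℕ) (hx : x < 15) : TT d .leaf (fun _ => x) :=
  ⟨fun _ => hx, fun _ _ h => absurd h not_adj_leaf, fun _ _ _ h => absurd h not_adj_leaf⟩

/-- two non-leaf subtrees -/
lemma real_PP {d : ℕ → ℕ → Prop} (hd : ∀ x y, d x y → d y x) {l r : BT} (hl : ¬ isLeaf l)
    (hr : ¬ isLeaf r) {a r1 c1 c2 ax ay az bx b1 b2 r2 c1' c2' ax' ay' az' bx' b1' b2' : ℕ}
    (h : Real d l r1 c1 c2 ax ay az bx b1 b2) (h' : Real d r r2 c1' c2' ax' ay' az' bx' b1' b2')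
    (ha : a < 15) (e1 : d a r1) (e2 : d a r2) (e3 : r1 ≠ r2) (e4 : c1 ≠ a) (e4' : c2 ≠ a)
    (e5 : c1' ≠ a) (e5' : c2' ≠ a) (e6 : d bx ax') (e7 : b1 ≠ ax') (e7' : b2 ≠ ax')
    (e8 : ay' ≠ bx) (e8' : az' ≠ bx) :
    Real d (.node l r) a r1 r2 ax ay az bx' b1' b2' := by
  obtain ⟨c, hc, ⟨h1, h1'⟩, ⟨h2, h2'⟩, ⟨h3, h3'⟩⟩ := h
  obtain ⟨c', hc', ⟨g1, g1'⟩, ⟨g2, g2'⟩, ⟨g3, g3'⟩⟩ := h'
  refine ⟨glue a c c', glue_TT hd ha hc hc' (by rw [h1]; exact e1) (by rw [g1]; exact e2)
    (by rw [h1, g1]; exact e3) ?_ ?_ (by rw [h3, g2]; exact e6) ?_ ?_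
    (fun e => absurd e (top_ne_last hl)) (fun e => absurd e (top_ne_first hr)), ?_, ?_, ?_⟩
  · intro y hy; rcases h1' y hy with e | e <;> rw [e] <;> assumption
  · intro y hy; rcases g1' y hy with e | e <;> rw [e] <;> assumption
  · intro y hy; rw [g2]; rcases h3' y hy with e | e <;> rw [e] <;> assumption
  · intro y hy; rw [h3]; rcases g2' y hy with e | e <;> rw [e] <;> assumption
  · refine ⟨rfl, ?_⟩
    rintro (_ | x | x) hw
    · exact absurd hw adj_none_none
    · rw [show top (BT.node l r) = none from rfl, adj_none_inl] at hw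
      subst hw; exact Or.inl h1
    · rw [show top (BT.node l r) = none from rfl, adj_none_inr] at hw
      subst hw; exact Or.inr g1
  · refine ⟨h2, ?_⟩
    rintro (_ | x | x) hw
    · rw [show first (BT.node l r) = some (Sum.inl (first l)) from rfl, adj_inl_none] at hw
      exact absurd hw.symm (top_ne_first hl)
    · rw [show first (BT.node l r) = some (Sum.inl (first l)) from rfl, adj_inl_inl] at hw
      exact h2' x hw
    · rw [show first (BT.node l r) = some (Sum.inl (first l)) from rfl, adj_inl_inr] at hw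
      exact absurd hw.1 (first_ne_last hl)
  · refine ⟨g3, ?_⟩
    rintro (_ | x | x) hw
    · rw [show last (BT.node l r) = some (Sum.inr (last r)) from rfl, adj_inr_none] at hw
      exact absurd hw.symm (top_ne_last hr)
    · rw [show last (BT.node l r) = some (Sum.inr (last r)) from rfl, adj_inr_inl] at hw
      exact absurd hw.2.symm (first_ne_last hr)
    · rw [show last (BT.node l r) = some (Sum.inr (last r)) from rfl, adj_inr_inr] at hw
      exact g3' x hw

/-- a leaf and a non-leaf subtree -/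
lemma real_LP {d : ℕ → ℕ → Prop} (hd : ∀ x y, d x y → d y x) {r : BT}
    (hr : ¬ isLeaf r) {a r1 r2 c1' c2' ax' ay' az' bx' b1' b2' : ℕ}
    (h' : Real d r r2 c1' c2' ax' ay' az' bx' b1' b2')
    (ha : a < 15) (hr1 : r1 < 15) (e1 : d a r1) (e2 : d a r2) (e3 : r1 ≠ r2)
    (e5 : c1' ≠ a) (e5' : c2' ≠ a) (e6 : d r1 ax')
    (e8 : ay' ≠ r1) (e8' : az' ≠ r1) (e9 : a ≠ ax') :
    Real d (.node .leaf r) a r1 r2 r1 a ax' bx' b1' b2' := by
  obtain ⟨c', hc', ⟨g1, g1'⟩, ⟨g2, g2'⟩, ⟨g3, g3'⟩⟩ := h'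
  refine ⟨glue a (fun _ => r1) c', glue_TT hd ha (leaf_TT d r1 hr1) hc' e1 (by rw [g1]; exact e2)
    (by rw [g1]; exact e3) (fun y hy => absurd hy not_adj_leaf) ?_ (by rw [g2]; exact e6)
    (fun y hy => absurd hy not_adj_leaf) ?_ (fun _ => by rw [g2]; exact e9)
    (fun e => absurd e (top_ne_first hr)), ?_, ?_, ?_⟩
  · intro y hy; rcases g1' y hy with e | e <;> rw [e] <;> assumption
  · intro y hy; rcases g2' y hy with e | e <;> rw [e] <;> assumption
  · refine ⟨rfl, ?_⟩
    rintro (_ | x | x) hw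
    · exact absurd hw adj_none_none
    · exact Or.inl rfl
    · rw [show top (BT.node .leaf r) = none from rfl, adj_none_inr] at hw
      subst hw; exact Or.inr g1
  · refine ⟨rfl, ?_⟩
    rintro (_ | x | x) hw
    · exact Or.inl rfl
    · rw [show first (BT.node .leaf r) = some (Sum.inl (first .leaf)) from rfl, adj_inl_inl] at hw
      exact absurd hw not_adj_leaf
    · rw [show first (BT.node .leaf r) = some (Sum.inl (first .leaf)) from rfl, adj_inl_inr] at hw
      right
      rw [hw.2]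
      exact g2
  · refine ⟨g3, ?_⟩
    rintro (_ | x | x) hw
    · rw [show last (BT.node .leaf r) = some (Sum.inr (last r)) from rfl, adj_inr_none] at hw
      exact absurd hw.symm (top_ne_last hr)
    · rw [show last (BT.node .leaf r) = some (Sum.inr (last r)) from rfl, adj_inr_inl] at hw
      exact absurd hw.2.symm (first_ne_last hr)
    · rw [show last (BT.node .leaf r) = some (Sum.inr (last r)) from rfl, adj_inr_inr] at hw
      exact g3' x hw

/-- a non-leaf subtree and a leaf -/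
lemma real_PL {d : ℕ → ℕ → Prop} (hd : ∀ x y, d x y → d y x) {l : BT}
    (hl : ¬ isLeaf l) {a r1 r2 c1 c2 ax ay az bx b1 b2 : ℕ}
    (h : Real d l r1 c1 c2 ax ay az bx b1 b2)
    (ha : a < 15) (hr2 : r2 < 15) (e1 : d a r1) (e2 : d a r2) (e3 : r1 ≠ r2)
    (e4 : c1 ≠ a) (e4' : c2 ≠ a) (e6 : d bx r2)
    (e7 : b1 ≠ r2) (e7' : b2 ≠ r2) (e9 : a ≠ bx) :
    Real d (.node l .leaf) a r1 r2 ax ay az r2 a bx := by
  obtain ⟨c, hc, ⟨h1, h1'⟩, ⟨h2, h2'⟩, ⟨h3, h3'⟩⟩ := h
  refine ⟨glue a c (fun _ => r2), glue_TT hd ha hc (leaf_TT d r2 hr2) (by rw [h1]; exact e1) e2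
    (by rw [h1]; exact e3) ?_ (fun y hy => absurd hy not_adj_leaf) (by rw [h3]; exact e6)
    ?_ (fun y hy => absurd hy not_adj_leaf) (fun e => absurd e (top_ne_last hl))
    (fun _ => by rw [h3]; exact e9), ?_, ?_, ?_⟩
  · intro y hy; rcases h1' y hy with e | e <;> rw [e] <;> assumption
  · intro y hy; rcases h3' y hy with e | e <;> rw [e] <;> assumption
  · refine ⟨rfl, ?_⟩
    rintro (_ | x | x) hw
    · exact absurd hw adj_none_none
    · rw [show top (BT.node l .leaf) = none from rfl, adj_none_inl] at hw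
      subst hw; exact Or.inl h1
    · exact Or.inr rfl
  · refine ⟨h2, ?_⟩
    rintro (_ | x | x) hw
    · rw [show first (BT.node l .leaf) = some (Sum.inl (first l)) from rfl, adj_inl_none] at hw
      exact absurd hw.symm (top_ne_first hl)
    · rw [show first (BT.node l .leaf) = some (Sum.inl (first l)) from rfl, adj_inl_inl] at hw
      exact h2' x hw
    · rw [show first (BT.node l .leaf) = some (Sum.inl (first l)) from rfl, adj_inl_inr] at hw
      exact absurd hw.1 (first_ne_last hl)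
  · refine ⟨rfl, ?_⟩
    rintro (_ | x | x) hw
    · exact Or.inl rfl
    · rw [show last (BT.node l .leaf) = some (Sum.inr (last .leaf)) from rfl, adj_inr_inl] at hw
      right
      rw [hw.1]
      exact h3
    · rw [show last (BT.node l .leaf) = some (Sum.inr (last .leaf)) from rfl, adj_inr_inr] at hw
      exact absurd hw not_adj_leaf

/-- two leaves -/
lemma real_LL {d : ℕ → ℕ → Prop} (hd : ∀ x y, d x y → d y x) {a r1 r2 : ℕ}
    (ha : a < 15) (hr1 : r1 < 15) (hr2 : r2 < 15) (e1 : d a r1) (e2 : d a r2) (e3 : r1 ≠ r2)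
    (e6 : d r1 r2) (e9 : a ≠ r2) (e10 : a ≠ r1) :
    Real d (.node .leaf .leaf) a r1 r2 r1 a r2 r2 a r1 := by
  refine ⟨glue a (fun _ => r1) (fun _ => r2), glue_TT hd ha (leaf_TT d r1 hr1) (leaf_TT d r2 hr2)
    e1 e2 e3 (fun y hy => absurd hy not_adj_leaf) (fun y hy => absurd hy not_adj_leaf) e6
    (fun y hy => absurd hy not_adj_leaf) (fun y hy => absurd hy not_adj_leaf) (fun _ => e9)
    (fun _ => e10), ?_, ?_, ?_⟩
  · refine ⟨rfl, ?_⟩
    rintro (_ | x | x) hw
    · exact absurd hw adj_none_none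
    · exact Or.inl rfl
    · exact Or.inr rfl
  · refine ⟨rfl, ?_⟩
    rintro (_ | x | x) hw
    · exact Or.inl rfl
    · rw [show first (BT.node .leaf .leaf) = some (Sum.inl (first .leaf)) from rfl,
        adj_inl_inl] at hw
      exact absurd hw not_adj_leaf
    · exact Or.inr rfl
  · refine ⟨rfl, ?_⟩
    rintro (_ | x | x) hw
    · exact Or.inl rfl
    · exact Or.inr rfl
    · rw [show last (BT.node .leaf .leaf) = some (Sum.inr (last .leaf)) from rfl,
        adj_inr_inr] at hw
      exact absurd hw not_adj_leaf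

end Pool.Agent.H136.HalinBase
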