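import Pool.Agent.H136.HalinCheck

set_option autoImplicit false

namespace Pool.Agent.H136.HalinClose

open Pool.Agent.H136.HalinBase Pool.Agent.H136.HalinCheck

/-- adjacency in the Halin graph -/
def HA (s t : BT) (u v : Vt s ⊕ Vt t) : Prop := hEd s t u v ∨ hEd s t v u

lemma HA_symm {s t : BT} {u v : Vt s ⊕ Vt t} (h : HA s t u v) : HA s t v u := Or.symm h

lemma ha_ll {s t : BT} {x y : Vt s} : HA s t (Sum.inl x) (Sum.inl y) ↔ Adj s x y := by
  simp [HA, hEd, Adj]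
lemma ha_rr {s t : BT} {x y : Vt t} : HA s t (Sum.inr x) (Sum.inr y) ↔ Adj t x y := by
  simp [HA, hEd, Adj]
lemma ha_lr {s t : BT} {x : Vt s} {y : Vt t} : HA s t (Sum.inl x) (Sum.inr y) ↔
    (x = top s ∧ y = top t) ∨ (x = last s ∧ y = first t) ∨ (x = first s ∧ y = last t) := by
  simp [HA, hEd]
lemma ha_rl {s t : BT} {x : Vt s} {y : Vt t} : HA s t (Sum.inr y) (Sum.inl x) ↔
    (x = top s ∧ y = top t) ∨ (x = last s ∧ y = first t) ∨ (x = first s ∧ y = last t) := by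
  simp [HA, hEd]

/-- a good labelling of the whole graph -/
def GoodLab (s t : BT) : Prop :=
  ∃ c : Vt s ⊕ Vt t → ℕ, (∀ v, c v < 15) ∧ (∀ u v, HA s t u v → D (c u) (c v)) ∧
    ∀ u v w, HA s t u v → HA s t u w → v ≠ w → c v ≠ c w

lemma GoodLab.swap {s t : BT} (h : GoodLab s t) : GoodLab t s := by
  obtain ⟨c, h1, h2, h3⟩ := h
  have key : ∀ u v, HA t s u v → HA s t u.swap v.swap := by
    rintro (x | x) (y | y) h
    · rw [Sum.swap_inl, Sum.swap_inl, ha_rr]; rwa [ha_ll] at h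
    · rw [Sum.swap_inl, Sum.swap_inr, ha_rl]; rw [ha_lr] at h
      tauto
    · rw [Sum.swap_inl, Sum.swap_inr, ha_lr]; rw [ha_rl] at h
      tauto
    · rw [Sum.swap_inr, Sum.swap_inr, ha_ll]; rwa [ha_rr] at h
  refine ⟨fun v => c v.swap, fun v => h1 _, fun u v h => h2 _ _ (key u v h), ?_⟩
  intro u v w h h' hne
  exact h3 _ _ _ (key u v h) (key u w h') (fun e => hne (by
    have := congrArg Sum.swap e
    simpa using this))

lemma close_gen {s t : BT} {c1 : Vt s → ℕ} {c2 : Vt t → ℕ} (h1 : TT D s c1) (h2 : TT D t c2)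
    (e1 : D (c1 (top s)) (c2 (top t))) (e2 : D (c1 (last s)) (c2 (first t)))
    (e3 : D (c1 (first s)) (c2 (last t)))
    (n1 : ∀ y, Adj s (top s) y → c1 y ≠ c2 (top t))
    (n2 : ∀ y, Adj s (last s) y → c1 y ≠ c2 (first t))
    (n3 : ∀ y, Adj s (first s) y → c1 y ≠ c2 (last t))
    (m1 : ∀ y, Adj t (top t) y → c2 y ≠ c1 (top s))
    (m2 : ∀ y, Adj t (first t) y → c2 y ≠ c1 (last s))
    (m3 : ∀ y, Adj t (last t) y → c2 y ≠ c1 (first s))
    (p1 : top s = last s → c2 (top t) ≠ c2 (first t))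
    (p2 : top s = first s → c2 (top t) ≠ c2 (last t))
    (p3 : last s = first s → c2 (first t) ≠ c2 (last t))
    (q1 : top t = first t → c1 (top s) ≠ c1 (last s))
    (q2 : top t = last t → c1 (top s) ≠ c1 (first s))
    (q3 : first t = last t → c1 (last s) ≠ c1 (first s)) : GoodLab s t := by
  refine ⟨Sum.elim c1 c2, ?_, ?_, ?_⟩
  · rintro (v | v)
    · exact h1.lt v
    · exact h2.lt v
  · rintro (x | x) (y | y) h
    · exact h1.adj _ _ (ha_ll.1 h)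
    · rcases ha_lr.1 h with ⟨rfl, rfl⟩ | ⟨rfl, rfl⟩ | ⟨rfl, rfl⟩
      · exact e1
      · exact e2
      · exact e3
    · rcases ha_rl.1 h with ⟨rfl, rfl⟩ | ⟨rfl, rfl⟩ | ⟨rfl, rfl⟩
      · exact D_symm _ _ e1
      · exact D_symm _ _ e2
      · exact D_symm _ _ e3
    · exact h2.adj _ _ (ha_rr.1 h)
  · rintro (x | x) (y | y) (z | z) h h' hne
    · exact h1.nb _ _ _ (ha_ll.1 h) (ha_ll.1 h') (fun e => hne (by rw [e]))
    · have h := ha_ll.1 h
      rcases ha_lr.1 h' with ⟨rfl, rfl⟩ | ⟨rfl, rfl⟩ | ⟨rfl, rfl⟩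
      · exact n1 _ h
      · exact n2 _ h
      · exact n3 _ h
    · have h' := ha_ll.1 h'
      rcases ha_lr.1 h with ⟨rfl, rfl⟩ | ⟨rfl, rfl⟩ | ⟨rfl, rfl⟩
      · exact (n1 _ h').symm
      · exact (n2 _ h').symm
      · exact (n3 _ h').symm
    · rcases ha_lr.1 h with ⟨i, rfl⟩ | ⟨i, rfl⟩ | ⟨i, rfl⟩ <;>
        rcases ha_lr.1 h' with ⟨j, rfl⟩ | ⟨j, rfl⟩ | ⟨j, rfl⟩
      · exact absurd rfl hne
      · exact p1 (i.symm.trans j)
      · exact p2 (i.symm.trans j)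
      · exact (p1 (j.symm.trans i)).symm
      · exact absurd rfl hne
      · exact p3 (i.symm.trans j)
      · exact (p2 (j.symm.trans i)).symm
      · exact (p3 (j.symm.trans i)).symm
      · exact absurd rfl hne
    · rcases ha_rl.1 h with ⟨rfl, i⟩ | ⟨rfl, i⟩ | ⟨rfl, i⟩ <;>
        rcases ha_rl.1 h' with ⟨rfl, j⟩ | ⟨rfl, j⟩ | ⟨rfl, j⟩
      · exact absurd rfl hne
      · exact q1 (i.symm.trans j)
      · exact q2 (i.symm.trans j)
      · exact (q1 (j.symm.trans i)).symm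
      · exact absurd rfl hne
      · exact q3 (i.symm.trans j)
      · exact (q2 (j.symm.trans i)).symm
      · exact (q3 (j.symm.trans i)).symm
      · exact absurd rfl hne
    · have h' := ha_rr.1 h'
      rcases ha_rl.1 h with ⟨rfl, rfl⟩ | ⟨rfl, rfl⟩ | ⟨rfl, rfl⟩
      · exact (m1 _ h').symm
      · exact (m2 _ h').symm
      · exact (m3 _ h').symm
    · have h := ha_rr.1 h
      rcases ha_rl.1 h' with ⟨rfl, rfl⟩ | ⟨rfl, rfl⟩ | ⟨rfl, rfl⟩
      · exact m1 _ h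
      · exact m2 _ h
      · exact m3 _ h
    · exact h2.nb _ _ _ (ha_rr.1 h) (ha_rr.1 h') (fun e => hne (by rw [e]))

/-- two non-leaf sides -/
lemma close_PP {s t : BT} (hs : ¬ isLeaf s) (ht : ¬ isLeaf t)
    {r1 c1 c2 ax ay az bx b1 b2 r2 c1' c2' ax' ay' az' bx' b1' b2' : ℕ}
    (h : Real D s r1 c1 c2 ax ay az bx b1 b2) (h' : Real D t r2 c1' c2' ax' ay' az' bx' b1' b2')
    (e1 : D r1 r2) (n1 : c1 ≠ r2) (n1' : c2 ≠ r2) (m1 : c1' ≠ r1) (m1' : c2' ≠ r1)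
    (e2 : D bx ax') (n2 : b1 ≠ ax') (n2' : b2 ≠ ax') (m2 : ay' ≠ bx) (m2' : az' ≠ bx)
    (e3 : D ax bx') (n3 : ay ≠ bx') (n3' : az ≠ bx') (m3 : b1' ≠ ax) (m3' : b2' ≠ ax) :
    GoodLab s t := by
  obtain ⟨c, hc, ⟨h1, h1'⟩, ⟨h2, h2'⟩, ⟨h3, h3'⟩⟩ := h
  obtain ⟨c', hc', ⟨g1, g1'⟩, ⟨g2, g2'⟩, ⟨g3, g3'⟩⟩ := h'
  refine close_gen hc hc' (by rw [h1, g1]; exact e1) (by rw [h3, g2]; exact e2)
    (by rw [h2, g3]; exact e3) ?_ ?_ ?_ ?_ ?_ ?_
    (fun e => absurd e (top_ne_last hs)) (fun e => absurd e (top_ne_first hs))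
    (fun e => absurd e (first_ne_last hs).symm) (fun e => absurd e (top_ne_first ht))
    (fun e => absurd e (top_ne_last ht)) (fun e => absurd e (first_ne_last ht))
  · intro y hy; rw [g1]; rcases h1' y hy with e | e <;> rw [e] <;> assumption
  · intro y hy; rw [g2]; rcases h3' y hy with e | e <;> rw [e] <;> assumption
  · intro y hy; rw [g3]; rcases h2' y hy with e | e <;> rw [e] <;> assumption
  · intro y hy; rw [h1]; rcases g1' y hy with e | e <;> rw [e] <;> assumption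
  · intro y hy; rw [h3]; rcases g2' y hy with e | e <;> rw [e] <;> assumption
  · intro y hy; rw [h2]; rcases g3' y hy with e | e <;> rw [e] <;> assumption

/-- a single leaf on the left side -/
lemma close_LP {t : BT} (ht : ¬ isLeaf t)
    {l r2 c1' c2' ax' ay' az' bx' b1' b2' : ℕ}
    (h' : Real D t r2 c1' c2' ax' ay' az' bx' b1' b2') (hl : l < 15)
    (e1 : D l r2) (m1 : c1' ≠ l) (m1' : c2' ≠ l)
    (e2 : D l ax') (m2 : ay' ≠ l) (m2' : az' ≠ l)
    (e3 : D l bx') (m3 : b1' ≠ l) (m3' : b2' ≠ l)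
    (p1 : r2 ≠ ax') (p2 : r2 ≠ bx') (p3 : ax' ≠ bx') :
    GoodLab .leaf t := by
  obtain ⟨c', hc', ⟨g1, g1'⟩, ⟨g2, g2'⟩, ⟨g3, g3'⟩⟩ := h'
  refine close_gen (leaf_TT D l hl) hc' (by rw [g1]; exact e1) (by rw [g2]; exact e2)
    (by rw [g3]; exact e3) (fun y hy => absurd hy not_adj_leaf)
    (fun y hy => absurd hy not_adj_leaf) (fun y hy => absurd hy not_adj_leaf) ?_ ?_ ?_
    (fun _ => by rw [g1, g2]; exact p1) (fun _ => by rw [g1, g3]; exact p2)
    (fun _ => by rw [g2, g3]; exact p3) (fun e => absurd e (top_ne_first ht))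
    (fun e => absurd e (top_ne_last ht)) (fun e => absurd e (first_ne_last ht))
  · intro y hy; rcases g1' y hy with e | e <;> rw [e] <;> assumption
  · intro y hy; rcases g2' y hy with e | e <;> rw [e] <;> assumption
  · intro y hy; rcases g3' y hy with e | e <;> rw [e] <;> assumption

/-- closing check for two non-leaf sides -/
def chkCP (Ri Rj : List ℕ) (e : ℕ) : Bool :=
  match Ri[e &&& 63]?, Rj[(e >>> 16) &&& 63]? with
  | some p, some q =>
    let g := (e >>> 6) &&& 1023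
    Nat.blt g 720 && dB (pm g 0) 0 && ne (pm g (cY p)) 0 && ne (pm g (cZ p)) 0 &&
    ne (cY q) (pm g 0) && ne (cZ q) (pm g 0) &&
    dB (pm g (eX (sB p))) (eX (sA q)) &&
    ne (pm g (eY (sB p))) (eX (sA q)) && ne (pm g (eZ (sB p))) (eX (sA q)) &&
    ne (eY (sA q)) (pm g (eX (sB p))) && ne (eZ (sA q)) (pm g (eX (sB p))) &&
    dB (pm g (eX (sA p))) (eX (sB q)) &&
    ne (pm g (eY (sA p))) (eX (sB q)) && ne (pm g (eZ (sA p))) (eX (sB q)) &&
    ne (eY (sB q)) (pm g (eX (sA p))) && ne (eZ (sB q)) (pm g (eX (sA p)))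
  | _, _ => false

lemma chkCP_spec {Ri Rj : List ℕ} {e : ℕ} (h : chkCP Ri Rj e = true) {s t : BT}
    (hs : ¬ isLeaf s) (ht : ¬ isLeaf t) (hi : ∀ p ∈ Ri, RC s p) (hj : ∀ q ∈ Rj, RC t q) :
    GoodLab s t := by
  unfold chkCP at h
  split at h
  · rename_i p q hp hq
    simp only [Bool.and_eq_true, ne_iff, Nat.blt_eq] at h
    obtain ⟨⟨⟨⟨⟨⟨⟨⟨⟨⟨⟨⟨⟨⟨⟨hg, h1⟩, h2⟩, h3⟩, h4⟩, h5⟩, h6⟩, h7⟩, h8⟩, h9⟩, h10⟩, h11⟩, h12⟩,
      h13⟩, h14⟩, h15⟩ := h
    have P := (hi p (mem_of_get hp)).map (good_of_lt hg)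
    have Q : Real D t 0 (cY q) (cZ q) (eX (sA q)) (eY (sA q)) (eZ (sA q)) (eX (sB q))
      (eY (sB q)) (eZ (sB q)) := hj q (mem_of_get hq)
    exact close_PP hs ht P Q h1 h2 h3 h4 h5 h6 h7 h8 h9 h10 h11 h12 h13 h14 h15
  · exact absurd h (by decide)

/-- closing check for a single leaf and a non-leaf side -/
def chkCL1 (Rj : List ℕ) (e : ℕ) : Bool :=
  match Rj[e &&& 63]? with
  | some q =>
    let l := e >>> 6
    Nat.blt l 15 && dB l 0 && ne (cY q) l && ne (cZ q) l &&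
    dB l (eX (sA q)) && ne (eY (sA q)) l && ne (eZ (sA q)) l &&
    dB l (eX (sB q)) && ne (eY (sB q)) l && ne (eZ (sB q)) l &&
    ne 0 (eX (sA q)) && ne 0 (eX (sB q)) && ne (eX (sA q)) (eX (sB q))
  | _ => false

lemma chkCL1_spec {Rj : List ℕ} {e : ℕ} (h : chkCL1 Rj e = true) {t : BT}
    (ht : ¬ isLeaf t) (hj : ∀ q ∈ Rj, RC t q) : GoodLab .leaf t := by
  unfold chkCL1 at h
  split at h
  · rename_i q hq
    simp only [Bool.and_eq_true, ne_iff, Nat.blt_eq] at h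
    obtain ⟨⟨⟨⟨⟨⟨⟨⟨⟨⟨⟨⟨hg, h1⟩, h2⟩, h3⟩, h4⟩, h5⟩, h6⟩, h7⟩, h8⟩, h9⟩, h10⟩, h11⟩, h12⟩ := h
    have Q : Real D t 0 (cY q) (cZ q) (eX (sA q)) (eY (sA q)) (eZ (sA q)) (eX (sB q))
      (eY (sB q)) (eZ (sB q)) := hj q (mem_of_get hq)
    exact close_LP ht Q hg h1 h2 h3 h4 h5 h6 h7 h8 h9 h10 h11 h12
  · exact absurd h (by decide)

/-- one row of the closing table, 24 bits for each entry -/
def chkCrow (f : List ℕ → ℕ → Bool) : List (List ℕ) → ℕ → Bool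
  | [], _ => true
  | Rj :: Rs, w => f Rj (w &&& 0xffffff) && chkCrow f Rs (w >>> 24)

lemma chkCrow_spec {f : List ℕ → ℕ → Bool} : ∀ {Rs : List (List ℕ)} {w : ℕ},
    chkCrow f Rs w = true → ∀ R ∈ Rs, ∃ e, f R e = true
  | [], _, _, R, hR => absurd hR (List.not_mem_nil)
  | a :: l, w, h, R, hR => by
      rw [chkCrow, Bool.and_eq_true] at h
      rcases List.mem_cons.1 hR with rfl | hR'
      · exact ⟨_, h.1⟩
      · exact chkCrow_spec h.2 R hR'

/-- the closing table -/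
def chkCL (all : List (List ℕ)) : List (List ℕ) → List ℕ → Bool
  | [], _ => true
  | _ :: _, [] => false
  | Ri :: Rs, w :: ws => chkCrow (chkCP Ri) all w && chkCL all Rs ws

lemma chkCL_spec {all : List (List ℕ)} : ∀ {Rs : List (List ℕ)} {ws : List ℕ},
    chkCL all Rs ws = true → ∀ Ri ∈ Rs, ∀ Rj ∈ all, ∃ e, chkCP Ri Rj e = true
  | [], _, _, R, hR => absurd hR (List.not_mem_nil)
  | _ :: _, [], h, _, _ => by simp [chkCL] at h
  | R :: Rs, w :: ws, h, Ri, hR => by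
      rw [chkCL, Bool.and_eq_true] at h
      rcases List.mem_cons.1 hR with rfl | hR'
      · exact chkCrow_spec h.1
      · exact chkCL_spec h.2 Ri hR'

/-- closing table for a single leaf -/
def chkCF (reps : List (List ℕ)) (w : ℕ) : Bool := chkCrow chkCL1 reps w

end Pool.Agent.H136.HalinClose
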