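import Pool.Agent.H136.HalinData

set_option autoImplicit false

namespace Pool.Agent.H136.HalinMain

open Pool.Agent.H136.HalinBase Pool.Agent.H136.HalinCheck Pool.Agent.H136.HalinClose
  Pool.Agent.H136.HalinData

lemma isLeaf_or (t : BT) : t = .leaf ∨ ¬ isLeaf t := by
  cases t with
  | leaf => exact Or.inl rfl
  | node l r => exact Or.inr (fun h => h)

lemma cherry_RC : ∀ s ∈ R0, RC (.node .leaf .leaf) s := by
  intro s hs
  rw [R0, List.mem_singleton] at hs
  subst hs
  unfold RC
  have h1 : D 0 9 := by unfold D; decide +kernel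
  have h2 : D 0 14 := by unfold D; decide +kernel
  have h3 : D 9 14 := by unfold D; decide +kernel
  have h := real_LL D_symm (a := 0) (r1 := 9) (r2 := 14) (by norm_num) (by norm_num) (by norm_num)
    h1 h2 (by norm_num) h3 (by norm_num) (by norm_num)
  have k1 : cY 9498121 = 9 := by decide +kernel
  have k2 : cZ 9498121 = 14 := by decide +kernel
  have k3 : eX (sA 9498121) = 9 := by decide +kernel
  have k4 : eY (sA 9498121) = 0 := by decide +kernel
  have k5 : eZ (sA 9498121) = 14 := by decide +kernel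
  have k6 : eX (sB 9498121) = 14 := by decide +kernel
  have k7 : eY (sB 9498121) = 0 := by decide +kernel
  have k8 : eZ (sB 9498121) = 9 := by decide +kernel
  rw [k1, k2, k3, k4, k5, k6, k7, k8]
  exact h

lemma reps_sub {R : List ℕ} (h : R ∈ reps) : R ∈ all := List.mem_cons_of_mem _ h

/-- every non-leaf tree realises all states of one of the classes -/
lemma main : ∀ t : BT, ¬ isLeaf t → ∃ R ∈ all, (∀ s ∈ R, RC t s) ∧
    (t = .node .leaf .leaf ∨ R ∈ reps) := by
  intro t
  induction t with
  | leaf => intro h; exact absurd trivial h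
  | node l r ihl ihr =>
      intro _
      rcases isLeaf_or l with rfl | hl <;> rcases isLeaf_or r with rfl | hr
      · exact ⟨R0, List.mem_cons_self, cherry_RC, Or.inl rfl⟩
      · obtain ⟨Rj, hj, hj', -⟩ := ihr hr
        obtain ⟨Rk, hk, hk'⟩ := lp_all Rj hj
        refine ⟨Rk, reps_sub hk, fun s hs => ?_, Or.inr hk⟩
        obtain ⟨e, he⟩ := hk' s hs
        exact chkLP_spec he hr hj'
      · obtain ⟨Ri, hi, hi', -⟩ := ihl hl
        obtain ⟨Rk, hk, hk'⟩ := pl_all Ri hi
        refine ⟨Rk, reps_sub hk, fun s hs => ?_, Or.inr hk⟩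
        obtain ⟨e, he⟩ := hk' s hs
        exact chkPL_spec he hl hi'
      · obtain ⟨Ri, hi, hi', -⟩ := ihl hl
        obtain ⟨Rj, hj, hj', -⟩ := ihr hr
        obtain ⟨Rk, hk, hk'⟩ := pp_all Ri hi Rj hj
        refine ⟨Rk, reps_sub hk, fun s hs => ?_, Or.inr hk⟩
        obtain ⟨e, he⟩ := hk' s hs
        exact chkPP_spec he hl hr hi' hj'

lemma good_PP {s t : BT} (hs : ¬ isLeaf s) (ht : ¬ isLeaf t) : GoodLab s t := by
  obtain ⟨Ri, hi, hi', -⟩ := main s hs
  obtain ⟨Rj, hj, hj', -⟩ := main t ht
  obtain ⟨e, he⟩ := chkCL_spec cl_ok Ri hi Rj hj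
  exact chkCP_spec he hs ht hi' hj'

lemma good_LP {t : BT} (ht : ¬ isLeaf t) (h : t ≠ .node .leaf .leaf) : GoodLab .leaf t := by
  obtain ⟨Rj, -, hj', h' | hj⟩ := main t ht
  · exact absurd h' h
  · have hc : chkCrow chkCL1 reps cfT = true := cf_ok
    obtain ⟨e, he⟩ := chkCrow_spec hc Rj hj
    exact chkCL1_spec he ht hj'

/-- the number of vertices -/
def size : BT → ℕ
  | .leaf => 1
  | .node l r => size l + size r + 1

instance instFin : (t : BT) → Fintype (Vt t)
  | .leaf => inferInstanceAs (Fintype Unit)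
  | .node l r =>
      letI := instFin l
      letI := instFin r
      inferInstanceAs (Fintype (Option (Vt l ⊕ Vt r)))

lemma card_Vt : ∀ t : BT, Nat.card (Vt t) = size t
  | .leaf => by simp [Vt, size]
  | .node l r => by
      show Nat.card (Option (Vt l ⊕ Vt r)) = size l + size r + 1
      rw [Finite.card_option, Nat.card_sum, card_Vt l, card_Vt r]

lemma good {s t : BT} (h : 6 ≤ Nat.card (Vt s ⊕ Vt t)) : GoodLab s t := by
  rw [Nat.card_sum, card_Vt, card_Vt] at h
  rcases isLeaf_or s with rfl | hs <;> rcases isLeaf_or t with rfl | ht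
  · simp [size] at h
  · refine good_LP ht ?_
    rintro rfl
    simp [size] at h
  · refine (good_LP hs ?_).swap
    rintro rfl
    simp [size] at h
  · exact good_PP hs ht

/-- the 2-subset of the six colours encoded by a label -/
def F (l : ℕ) : Finset (Fin 6) := Finset.univ.filter fun x => (mask l).testBit x.val = true

lemma F_card : ∀ l, l < 15 → (F l).card = 2 := by decide +kernel

lemma F_disj : ∀ l, l < 15 → ∀ m, m < 15 → dB l m = true → (F l ∩ F m).card = 0 := by
  decide +kernel

lemma F_ne : ∀ l, l < 15 → ∀ m, m < 15 → l ≠ m → (F l ∩ F m).card ≤ 1 := by decide +kernel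

end Pool.Agent.H136.HalinMain
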