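import Mathlib

set_option autoImplicit false

namespace Pool.Agent.H136.Occ

/-- value at `2` of the independence polynomial of the part of the graph on the vertices `< k`
that avoid the mask `F` -/
def zrec (a : ℕ → ℕ) : ℕ → ℕ → ℕ
  | 0, _ => 1
  | k + 1, F => zrec a k F + if F.testBit k then 0 else 2 * zrec a k (F ||| a k)

/-- the same for `x` times the derivative -/
def mrec (a : ℕ → ℕ) : ℕ → ℕ → ℕ
  | 0, _ => 0
  | k + 1, F => mrec a k F +
      if F.testBit k then 0 else 2 * (mrec a k (F ||| a k) + zrec a k (F ||| a k))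

variable {n : ℕ}

/-- the vertices with value `< k` -/
def low (n k : ℕ) : Finset (Fin n) := Finset.univ.filter (fun i => i.val < k)

/-- `I` is independent and avoids the mask -/
def Ok (G : SimpleGraph (Fin n)) (F : ℕ) (I : Finset (Fin n)) : Prop :=
  G.IsIndepSet (I : Set (Fin n)) ∧ ∀ i ∈ I, F.testBit i.val = false

theorem low_succ (k : ℕ) (hk : k < n) : low n (k + 1) = insert ⟨k, hk⟩ (low n k) := by
  ext i
  simp only [low, Finset.mem_filter, Finset.mem_univ, true_and, Finset.mem_insert, Fin.ext_iff]
  omega

theorem not_mem_low (k : ℕ) (hk : k < n) : (⟨k, hk⟩ : Fin n) ∉ low n k := by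
  simp [low]

theorem ok_insert (G : SimpleGraph (Fin n)) (a : ℕ → ℕ)
    (ha : ∀ i j : Fin n, G.Adj i j ↔ (a i.val).testBit j.val = true)
    (F k : ℕ) (hk : k < n) (t : Finset (Fin n)) (ht : t ⊆ low n k) :
    Ok G F (insert ⟨k, hk⟩ t) ↔ F.testBit k = false ∧ Ok G (F ||| a k) t := by
  have hnot : (⟨k, hk⟩ : Fin n) ∉ t := fun h => not_mem_low k hk (ht h)
  unfold Ok
  constructor
  · rintro ⟨h1, h2⟩
    refine ⟨h2 ⟨k, hk⟩ (Finset.mem_insert_self _ _), ?_, ?_⟩
    · intro x hx y hy hxy
      exact h1 (by simp at hx ⊢; exact Or.inr hx) (by simp at hy ⊢; exact Or.inr hy) hxy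
    · intro i hi
      have hF := h2 i (Finset.mem_insert_of_mem hi)
      have hadj : ¬ G.Adj ⟨k, hk⟩ i := by
        apply h1
        · simp
        · simp [hi]
        · intro h
          exact hnot (h ▸ hi)
      rw [ha] at hadj
      simp only [Nat.testBit_or, hF, Bool.false_or]
      simpa using hadj
  · rintro ⟨h0, h1, h2⟩
    have hnadj : ∀ i ∈ t, ¬ G.Adj ⟨k, hk⟩ i := by
      intro i hi
      rw [ha]
      have := h2 i hi
      simp only [Nat.testBit_or, Bool.or_eq_false_iff] at this
      simp [this.2]
    refine ⟨?_, ?_⟩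
    · intro x hx y hy hxy
      simp only [Finset.coe_insert, Set.mem_insert_iff, Finset.mem_coe] at hx hy
      rcases hx with rfl | hx <;> rcases hy with rfl | hy
      · exact absurd rfl hxy
      · exact hnadj y hy
      · exact fun h => hnadj x hx h.symm
      · exact h1 hx hy hxy
    · intro i hi
      rcases Finset.mem_insert.mp hi with rfl | hi
      · exact h0
      · have := h2 i hi
        simp only [Nat.testBit_or, Bool.or_eq_false_iff] at this
        exact this.1

open Classical in
theorem both_eq (G : SimpleGraph (Fin n)) (a : ℕ → ℕ)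
    (ha : ∀ i j : Fin n, G.Adj i j ↔ (a i.val).testBit j.val = true) :
    ∀ (k : ℕ), k ≤ n → ∀ F : ℕ,
      (∑ I ∈ (low n k).powerset, if Ok G F I then 2 ^ I.card else 0) = zrec a k F ∧
      (∑ I ∈ (low n k).powerset, if Ok G F I then I.card * 2 ^ I.card else 0) = mrec a k F := by
  intro k
  induction k with
  | zero =>
    intro _ F
    have h0 : low n 0 = ∅ := by simp [low]
    have hok : Ok G F (∅ : Finset (Fin n)) := by
      refine ⟨?_, ?_⟩
      · simp [SimpleGraph.IsIndepSet]
      · simp
    rw [h0]
    simp [zrec, mrec, hok]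
  | succ k ih =>
    intro hk F
    have hk' : k < n := hk
    have ih1 := ih hk'.le
    have key : ∀ f : ℕ → ℕ,
        (∑ I ∈ (low n (k + 1)).powerset, if Ok G F I then f I.card else 0) =
        (∑ I ∈ (low n k).powerset, if Ok G F I then f I.card else 0) +
          if F.testBit k then 0
          else ∑ I ∈ (low n k).powerset, if Ok G (F ||| a k) I then f (I.card + 1) else 0 := by
      intro f
      rw [low_succ k hk', Finset.sum_powerset_insert (not_mem_low k hk')]
      congr 1
      by_cases hb : F.testBit k = true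
      · rw [if_pos hb]
        apply Finset.sum_eq_zero
        intro t ht
        rw [if_neg]
        rw [ok_insert G a ha F k hk' t (Finset.mem_powerset.mp ht)]
        simp [hb]
      · rw [if_neg hb]
        apply Finset.sum_congr rfl
        intro t ht
        have htk := Finset.mem_powerset.mp ht
        have hnot : (⟨k, hk'⟩ : Fin n) ∉ t := fun h => not_mem_low k hk' (htk h)
        rw [Finset.card_insert_of_notMem hnot]
        by_cases hok : Ok G (F ||| a k) t
        · rw [if_pos hok, if_pos]
          rw [ok_insert G a ha F k hk' t htk]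
          exact ⟨by simpa using hb, hok⟩
        · rw [if_neg hok, if_neg]
          rw [ok_insert G a ha F k hk' t htk]
          exact fun h => hok h.2
    constructor
    · have h1 := key (fun c => 2 ^ c)
      beta_reduce at h1
      rw [h1, (ih1 F).1, zrec]
      congr 1
      split_ifs with hb
      · rfl
      · rw [← (ih1 (F ||| a k)).1, Finset.mul_sum]
        apply Finset.sum_congr rfl
        intro t _
        split_ifs
        · rw [pow_succ]; ring
        · simp
    · have h1 := key (fun c => c * 2 ^ c)
      beta_reduce at h1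
      rw [h1, (ih1 F).2, mrec]
      congr 1
      split_ifs with hb
      · rfl
      · rw [← (ih1 (F ||| a k)).1, ← (ih1 (F ||| a k)).2, mul_add, Finset.mul_sum, Finset.mul_sum,
          ← Finset.sum_add_distrib]
        apply Finset.sum_congr rfl
        intro t _
        split_ifs
        · rw [pow_succ]; ring
        · simp

/-- the two sums of the problem at the fugacity `2` -/
theorem sums_eq (G : SimpleGraph (Fin n)) (a : ℕ → ℕ)
    (ha : ∀ i j : Fin n, G.Adj i j ↔ (a i.val).testBit j.val = true)
    (inst : ∀ I : Finset (Fin n), Decidable (G.IsIndepSet (I : Set (Fin n)))) :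
    (∑ I : Finset (Fin n), @ite ℝ (G.IsIndepSet (I : Set (Fin n))) (inst I)
      ((2 : ℝ) ^ I.card) 0) = (zrec a n 0 : ℝ) ∧
    (∑ I : Finset (Fin n), @ite ℝ (G.IsIndepSet (I : Set (Fin n))) (inst I)
      ((I.card : ℝ) * (2 : ℝ) ^ I.card) 0) = (mrec a n 0 : ℝ) := by
  classical
  have h := both_eq G a ha n le_rfl 0
  have hlow : low n n = Finset.univ := by
    ext i; simp [low]
  have hOk : ∀ I : Finset (Fin n), Ok G 0 I ↔ G.IsIndepSet (I : Set (Fin n)) := by
    intro I; simp [Ok]
  rw [hlow, Finset.powerset_univ] at h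
  constructor
  · rw [← h.1]
    push_cast
    apply Finset.sum_congr rfl
    intro I _
    by_cases hI : G.IsIndepSet (I : Set (Fin n))
    · rw [if_pos hI, if_pos ((hOk I).2 hI)]
    · rw [if_neg hI, if_neg (fun h => hI ((hOk I).1 h))]
  · rw [← h.2]
    push_cast
    apply Finset.sum_congr rfl
    intro I _
    by_cases hI : G.IsIndepSet (I : Set (Fin n))
    · rw [if_pos hI, if_pos ((hOk I).2 hI)]
    · rw [if_neg hI, if_neg (fun h => hI ((hOk I).1 h))]

/-- the same sums for a graph on any type identified with `Fin n` -/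
theorem sums_eq_equiv {V : Type} [Fintype V] (e : V ≃ Fin n) (G : SimpleGraph V) (a : ℕ → ℕ)
    (ha : ∀ x y : V, G.Adj x y ↔ (a (e x).val).testBit (e y).val = true)
    (inst : ∀ I : Finset V, Decidable (G.IsIndepSet (I : Set V))) :
    (∑ I : Finset V, @ite ℝ (G.IsIndepSet (I : Set V)) (inst I)
      ((2 : ℝ) ^ I.card) 0) = (zrec a n 0 : ℝ) ∧
    (∑ I : Finset V, @ite ℝ (G.IsIndepSet (I : Set V)) (inst I)
      ((I.card : ℝ) * (2 : ℝ) ^ I.card) 0) = (mrec a n 0 : ℝ) := by
  classical
  have ha' : ∀ i j : Fin n, (G.comap e.symm).Adj i j ↔ (a i.val).testBit j.val = true := by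
    intro i j
    rw [SimpleGraph.comap_adj, ha]
    simp
  have h := sums_eq (G.comap e.symm) a ha' (fun I => Classical.propDecidable _)
  have hind : ∀ I : Finset V, (G.comap e.symm).IsIndepSet
      ((e.finsetCongr I : Finset (Fin n)) : Set (Fin n)) ↔ G.IsIndepSet (I : Set V) := by
    intro I
    constructor
    · intro h x hx y hy hxy hadj
      refine h (x := e x) ?_ (y := e y) ?_ (fun hh => hxy (e.injective hh)) ?_
      · simpa using hx
      · simpa using hy
      · rw [SimpleGraph.comap_adj]; simpa using hadj
    · intro h x hx y hy hxy hadj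
      rw [SimpleGraph.comap_adj] at hadj
      refine h (x := e.symm x) ?_ (y := e.symm y) ?_ (fun hh => hxy (e.symm.injective hh)) hadj
      · simpa [Equiv.finsetCongr_apply] using hx
      · simpa [Equiv.finsetCongr_apply] using hy
  constructor
  · rw [← h.1]
    refine Fintype.sum_equiv e.finsetCongr _ _ (fun I => ?_)
    by_cases hI : G.IsIndepSet (I : Set V)
    · rw [if_pos hI, if_pos ((hind I).2 hI)]; simp
    · rw [if_neg hI, if_neg (fun h => hI ((hind I).1 h))]
  · rw [← h.2]
    refine Fintype.sum_equiv e.finsetCongr _ _ (fun I => ?_)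
    by_cases hI : G.IsIndepSet (I : Set V)
    · rw [if_pos hI, if_pos ((hind I).2 hI)]; simp
    · rw [if_neg hI, if_neg (fun h => hI ((hind I).1 h))]

/-- the adjacency masks of the 20-vertex graph -/
def ga (i : ℕ) : ℕ :=
  [141376, 57472, 4488, 656388, 151584, 67856, 557313, 264198, 612, 19712, 74248, 673, 40980,
    5123, 524818, 69698, 295968, 262169, 721024, 278600].getD i 0

/-- the adjacency masks of the Robertson graph -/
def ra (i : ℕ) : ℕ :=
  [67608, 32936, 66944, 270339, 20609, 7170, 133760, 86, 280580, 77888, 139300, 353, 262704,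
    17928, 41232, 212994, 33285, 296000, 135432].getD i 0

/-- the adjacency masks of the circulant graph -/
def ca (i : ℕ) : ℕ :=
  [4386, 581, 1162, 2324, 4648, 1105, 2210, 4420, 649, 1298, 2596, 5192, 2193].getD i 0

theorem ga_symm : ∀ i j : Fin 20, (ga i.val).testBit j.val = (ga j.val).testBit i.val := by
  decide +kernel

theorem ra_symm : ∀ i j : Fin 19, (ra i.val).testBit j.val = (ra j.val).testBit i.val := by
  decide +kernel

theorem ga_irrefl : ∀ i : Fin 20, (ga i.val).testBit i.val = false := by decide +kernel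

theorem ra_irrefl : ∀ i : Fin 19, (ra i.val).testBit i.val = false := by decide +kernel

/-- the 20-vertex graph -/
def G20 : SimpleGraph (Fin 20) where
  Adj i j := (ga i.val).testBit j.val = true
  symm := ⟨fun i j h => by rw [ga_symm]; exact h⟩
  loopless := ⟨fun i h => by rw [ga_irrefl] at h; exact absurd h (by simp)⟩

/-- the Robertson graph -/
def R19 : SimpleGraph (Fin 19) where
  Adj i j := (ra i.val).testBit j.val = true
  symm := ⟨fun i j h => by rw [ra_symm]; exact h⟩
  loopless := ⟨fun i h => by rw [ra_irrefl] at h; exact absurd h (by simp)⟩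

theorem ga_deg : ∀ i : Fin 20,
    (Finset.univ.filter (fun j : Fin 20 => (ga i.val).testBit j.val = true)).card = 4 := by
  decide +kernel

theorem ra_deg : ∀ i : Fin 19,
    (Finset.univ.filter (fun j : Fin 19 => (ra i.val).testBit j.val = true)).card = 4 := by
  decide +kernel

theorem ga_tri : ∀ i j : Fin 20, (ga i.val).testBit j.val = true →
    (ga i.val) &&& (ga j.val) = 0 := by decide +kernel

theorem ra_tri : ∀ i j : Fin 19, (ra i.val).testBit j.val = true →
    (ra i.val) &&& (ra j.val) = 0 := by decide +kernel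

theorem ra_c4 : ∀ i j k l : Fin 19, i ≠ j → k ≠ l → (ra i.val).testBit k.val = true →
    (ra i.val).testBit l.val = true → (ra j.val).testBit k.val = true →
    (ra j.val).testBit l.val = true → False := by decide +kernel

theorem zg : zrec ga 20 0 = 72225 := by decide +kernel
theorem mg : mrec ga 20 0 = 359800 := by decide +kernel
theorem zc : zrec ca 13 0 = 1483 := by decide +kernel
theorem mc : mrec ca 13 0 = 4810 := by decide +kernel

theorem ca_adj : ∀ x y : Fin 13, (x ≠ y ∧ ((x - y = 1 ∨ x - y = 5) ∨ (y - x = 1 ∨ y - x = 5))) ↔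
    (ca x.val).testBit y.val = true := by decide +kernel

theorem G20_reg [G20.LocallyFinite] : G20.IsRegularOfDegree 4 := by
  classical
  intro v
  rw [← SimpleGraph.card_neighborFinset_eq_degree, ← ga_deg v]
  congr 1
  ext w
  rw [SimpleGraph.mem_neighborFinset, Finset.mem_filter]
  exact ⟨fun h => ⟨Finset.mem_univ _, h⟩, fun h => h.2⟩

theorem R19_reg [R19.LocallyFinite] : R19.IsRegularOfDegree 4 := by
  classical
  intro v
  rw [← SimpleGraph.card_neighborFinset_eq_degree, ← ra_deg v]
  congr 1
  ext w
  rw [SimpleGraph.mem_neighborFinset, Finset.mem_filter]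
  exact ⟨fun h => ⟨Finset.mem_univ _, h⟩, fun h => h.2⟩

theorem no_common {a : ℕ → ℕ} {i j k : ℕ} (h : (a i) &&& (a j) = 0)
    (h1 : (a i).testBit k = true) (h2 : (a j).testBit k = true) : False := by
  have := congrArg (fun m => m.testBit k) h
  simp [Nat.testBit_and, h1, h2] at this

theorem G20_cf : G20.CliqueFree 3 := by
  classical
  intro s hs
  obtain ⟨a, b, c, hab, hac, hbc, rfl⟩ := SimpleGraph.is3Clique_iff.mp hs
  exact no_common (ga_tri a b hab) hac hbc

theorem R19_girth : (5 : ℕ∞) ≤ R19.egirth := by
  rw [SimpleGraph.le_egirth]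
  intro v w hw
  have h3 := hw.three_le_length
  by_contra hlt
  have hlt' : w.length < 5 := by
    by_contra h
    exact hlt (by exact_mod_cast (not_lt.mp h))
  have hadj : ∀ i, i < w.length → R19.Adj (w.getVert i) (w.getVert (i + 1)) :=
    fun i hi => w.adj_getVert_succ hi
  have hend : w.getVert w.length = v := w.getVert_length
  have h0 : w.getVert 0 = v := w.getVert_zero
  have hcase : w.length = 3 ∨ w.length = 4 := by omega
  rcases hcase with hl | hl
  · have a1 := hadj 0 (by omega)
    have a2 := hadj 1 (by omega)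
    have a3 := hadj 2 (by omega)
    rw [hl] at hend
    simp only [zero_add, Nat.reduceAdd] at a1 a2 a3
    rw [hend] at a3
    rw [h0] at a1
    exact no_common (ra_tri _ _ a2) a1.symm a3
  · have a1 := hadj 0 (by omega)
    have a2 := hadj 1 (by omega)
    have a3 := hadj 2 (by omega)
    have a4 := hadj 3 (by omega)
    rw [hl] at hend
    simp only [zero_add, Nat.reduceAdd] at a1 a2 a3 a4
    rw [hend] at a4
    rw [h0] at a1
    have hinj := hw.getVert_injOn
    have n13 : w.getVert 1 ≠ w.getVert 3 := by
      intro h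
      have := hinj (by simp; omega) (by simp; omega) h
      omega
    have n24 : w.getVert 2 ≠ v := by
      intro h
      have h' : w.getVert 2 = w.getVert 4 := h.trans hend.symm
      have := hinj (by simp; omega) (by simp; omega) h'
      omega
    exact ra_c4 (w.getVert 1) (w.getVert 3) (w.getVert 2) v n13 n24 a2 a1.symm a3.symm a4

end Pool.Agent.H136.Occ
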