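import Mathlib

set_option autoImplicit false
set_option linter.unusedSectionVars false
set_option linter.unusedSimpArgs false

namespace Pool.Agent.H136.Subtrees
open SimpleGraph

section general
variable {V : Type*} {G : SimpleGraph V}

/-- Subtrees built by adding one pendant edge at a time. -/
inductive Grow (G : SimpleGraph V) : G.Subgraph → Prop
  | single (v : V) : Grow G (G.singletonSubgraph v)
  | add (T : G.Subgraph) (a b : V) (h : G.Adj a b) :
      Grow G T → a ∈ T.verts → b ∉ T.verts → Grow G (T ⊔ G.subgraphOfAdj h)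

lemma tree_iff [Finite V] (T : G.Subgraph) :
    T.coe.IsTree ↔ T.Connected ∧ T.edgeSet.ncard + 1 = T.verts.ncard := by
  rw [isTree_iff_connected_and_card, Subgraph.connected_iff']
  have h1 : Nat.card T.coe.edgeSet = T.edgeSet.ncard := by
    rw [← Subgraph.image_coe_edgeSet_coe,
      Set.ncard_image_of_injective _ (Sym2.map.injective Subtype.val_injective)]
    rfl
  rw [h1]
  rfl

lemma verts_add (T : G.Subgraph) {a b : V} (h : G.Adj a b) (ha : a ∈ T.verts) :
    (T ⊔ G.subgraphOfAdj h).verts = insert b T.verts := by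
  ext x
  simp only [Subgraph.verts_sup, subgraphOfAdj_verts, Set.mem_union, Set.mem_insert_iff,
    Set.mem_singleton_iff]
  constructor
  · rintro (h | rfl | rfl)
    · exact Or.inr h
    · exact Or.inr ha
    · exact Or.inl rfl
  · rintro (h | h)
    · exact Or.inr (Or.inr h)
    · exact Or.inl h

lemma grow_spec [Finite V] {T : G.Subgraph} (hT : Grow G T) :
    T.Connected ∧ T.edgeSet.ncard + 1 = T.verts.ncard := by
  induction hT with
  | single v =>
    refine ⟨Subgraph.singletonSubgraph_connected, ?_⟩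
    simp
  | add T a b h _ ha hb ih =>
    refine ⟨Subgraph.connected_sup ih.1.preconnected
      (Subgraph.subgraphOfAdj_connected h).preconnected ⟨a, ?_⟩, ?_⟩
    · simp [ha]
    · rw [verts_add T h ha, Set.ncard_insert_of_notMem hb (Set.toFinite _), ← ih.2,
        Subgraph.edgeSet_sup, edgeSet_subgraphOfAdj, Set.union_singleton,
        Set.ncard_insert_of_notMem _ (Set.toFinite _)]
      intro hm
      exact hb (T.edge_vert ((Subgraph.mem_edgeSet.mp hm).symm))

lemma exists_cross {T T' : G.Subgraph} (hT : T.Connected) (hle : T' ≤ T)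
    (hne : T'.verts.Nonempty) (hlt : T'.verts ≠ T.verts) :
    ∃ a b, a ∈ T'.verts ∧ b ∉ T'.verts ∧ T.Adj a b := by
  obtain ⟨a0, ha0⟩ := hne
  have : ∃ b0 ∈ T.verts, b0 ∉ T'.verts := by
    by_contra hcon
    push Not at hcon
    exact hlt (Set.Subset.antisymm hle.1 hcon)
  obtain ⟨b0, hb0, hb0'⟩ := this
  obtain ⟨p⟩ := hT.preconnected ⟨a0, hle.1 ha0⟩ ⟨b0, hb0⟩
  obtain ⟨d, _, h1, h2⟩ := p.exists_boundary_dart {x | x.1 ∈ T'.verts} ha0 hb0'
  exact ⟨d.fst.1, d.snd.1, h1, h2, d.adj⟩

lemma exists_grow [Finite V] {T : G.Subgraph} (hT : T.Connected) (n : ℕ) (hn : n + 1 ≤ T.verts.ncard) :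
    ∃ T' ≤ T, Grow G T' ∧ T'.verts.ncard = n + 1 := by
  induction n with
  | zero =>
    obtain ⟨v, hv⟩ := hT.nonempty
    refine ⟨G.singletonSubgraph v, ?_, Grow.single v, by simp⟩
    exact (singletonSubgraph_le_iff v T).mpr hv
  | succ n ih =>
    obtain ⟨T', hle, hg, hc⟩ := ih (by omega)
    obtain ⟨a, b, ha, hb, hab⟩ := exists_cross hT hle (by
      rw [Set.nonempty_iff_ne_empty]; rintro h; rw [h] at hc; simp at hc) (by
      rintro h; rw [h] at hc; omega)
    have hG : G.Adj a b := T.adj_sub hab
    refine ⟨T' ⊔ G.subgraphOfAdj hG, sup_le hle (subgraphOfAdj_le_of_adj T hab), Grow.add T' a b hG hg ha hb, ?_⟩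
    rw [verts_add T' hG ha, Set.ncard_insert_of_notMem hb (Set.toFinite _), hc]

theorem tree_iff_grow [Finite V] (T : G.Subgraph) : T.coe.IsTree ↔ Grow G T := by
  constructor
  · intro h
    rw [tree_iff] at h
    obtain ⟨hc, hcard⟩ := h
    obtain ⟨T', hle, hg, hn⟩ := exists_grow hc (T.edgeSet.ncard) (by omega)
    have hv : T'.verts = T.verts := by
      apply Set.eq_of_subset_of_ncard_le hle.1 (by omega) (Set.toFinite _)
    have he : T'.edgeSet = T.edgeSet := by
      apply Set.eq_of_subset_of_ncard_le (Subgraph.edgeSet_mono hle) _ (Set.toFinite _)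
      have := (grow_spec hg).2
      omega
    have : T' = T := by
      ext x y
      · rw [hv]
      · rw [← Subgraph.mem_edgeSet, ← Subgraph.mem_edgeSet, he]
    rw [← this]; exact hg
  · intro h
    rw [tree_iff]
    exact grow_spec h


/-- The number `s_k(G)` of subtrees of `G` with exactly `k` vertices; a subtree is a subgraph
(not necessarily induced) which is a tree. -/
noncomputable def subtreeCount (G : SimpleGraph V) (k : ℕ) : ℕ :=
  {T : G.Subgraph | T.coe.IsTree ∧ T.verts.ncard = k}.ncard

/-- The mean subtree order `μ(G)` of a finite graph `G`, the average number of vertices of a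
subtree of `G`. -/
noncomputable def meanSubtreeOrder (G : SimpleGraph V) : ℚ :=
  (∑ k ∈ Finset.Icc 1 (Nat.card V), (k : ℚ) * subtreeCount G k) /
    (∑ k ∈ Finset.Icc 1 (Nat.card V), (subtreeCount G k : ℚ))

section iso

variable {W : Type*} {H : SimpleGraph W}

lemma Grow.map (e : G ≃g H) {T : G.Subgraph} (hT : Grow G T) : Grow H (T.map e.toHom) := by
  induction hT with
  | single v =>
    rw [map_singletonSubgraph]
    exact Grow.single _
  | add T a b h _ ha hb ih =>
    rw [Subgraph.map_sup, map_subgraphOfAdj]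
    refine Grow.add _ _ _ _ ih ⟨a, ha, rfl⟩ ?_
    rintro ⟨x, hx, hxb⟩
    exact hb (e.injective hxb ▸ hx)

lemma map_symm_map (e : G ≃g H) (T : G.Subgraph) : (T.map e.toHom).map e.symm.toHom = T := by
  rw [← Subgraph.map_comp]
  convert Subgraph.map_id T
  ext x
  simp

lemma map_map_symm (e : G ≃g H) (T : H.Subgraph) : (T.map e.symm.toHom).map e.toHom = T := by
  rw [← Subgraph.map_comp]
  convert Subgraph.map_id T
  ext x
  simp

lemma subtreeCount_iso [Finite V] [Finite W] (e : G ≃g H) (k : ℕ) :
    subtreeCount G k = subtreeCount H k := by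
  unfold subtreeCount
  have hinj : Function.Injective (fun T : G.Subgraph => T.map e.toHom) :=
    Function.LeftInverse.injective (map_symm_map e)
  rw [← Set.ncard_image_of_injective _ hinj]
  congr 1
  ext T
  simp only [Set.mem_image, Set.mem_ofPred_eq, tree_iff_grow]
  constructor
  · rintro ⟨S, ⟨hS, hc⟩, rfl⟩
    refine ⟨hS.map e, ?_⟩
    rw [Subgraph.map_verts, Set.ncard_image_of_injective (f := e.toHom) S.verts e.injective, hc]
  · rintro ⟨hT, hc⟩
    refine ⟨T.map e.symm.toHom, ⟨hT.map e.symm, ?_⟩, map_map_symm e T⟩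
    rw [Subgraph.map_verts, Set.ncard_image_of_injective (f := e.symm.toHom) T.verts e.symm.injective, hc]

lemma meanSubtreeOrder_iso [Finite V] [Finite W] (e : G ≃g H) :
    meanSubtreeOrder G = meanSubtreeOrder H := by
  unfold meanSubtreeOrder
  rw [Nat.card_congr e.toEquiv]
  simp only [subtreeCount_iso e]

end iso

section param

variable {ι : Type*}

lemma count_param (D : Finset ι) (φ : ι → G.Subgraph) (ord : ι → ℕ)
    (hinj : Set.InjOn φ D) (htree : ∀ d ∈ D, (φ d).coe.IsTree)
    (hsurj : ∀ T : G.Subgraph, T.coe.IsTree → ∃ d ∈ D, φ d = T)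
    (hord : ∀ d ∈ D, (φ d).verts.ncard = ord d) (k : ℕ) :
    subtreeCount G k = (D.filter (fun d => ord d = k)).card := by
  unfold subtreeCount
  have : {T : G.Subgraph | T.coe.IsTree ∧ T.verts.ncard = k}
      = φ '' (D.filter (fun d => ord d = k) : Finset ι) := by
    ext T
    simp only [Set.mem_ofPred_eq, Finset.coe_filter, Set.mem_image]
    constructor
    · rintro ⟨hT, hk⟩
      obtain ⟨d, hd, rfl⟩ := hsurj T hT
      exact ⟨d, ⟨hd, by rw [← hord d hd, hk]⟩, rfl⟩
    · rintro ⟨d, ⟨hd, hk⟩, rfl⟩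
      exact ⟨htree d hd, by rw [hord d hd, hk]⟩
  rw [this, Set.InjOn.ncard_image, Set.ncard_coe_finset]
  refine hinj.mono fun x hx => ?_
  simp only [Finset.coe_filter, Set.mem_ofPred_eq] at hx
  exact hx.1

lemma mean_param [Finite V] (D : Finset ι) (φ : ι → G.Subgraph) (ord : ι → ℕ)
    (hinj : Set.InjOn φ D) (htree : ∀ d ∈ D, (φ d).coe.IsTree)
    (hsurj : ∀ T : G.Subgraph, T.coe.IsTree → ∃ d ∈ D, φ d = T)
    (hord : ∀ d ∈ D, (φ d).verts.ncard = ord d) :
    meanSubtreeOrder G = ((∑ d ∈ D, ord d : ℕ) : ℚ) / (D.card : ℚ) := by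
  have hmaps : ∀ d ∈ D, ord d ∈ Finset.Icc 1 (Nat.card V) := by
    intro d hd
    have h1 := htree d hd
    rw [tree_iff] at h1
    rw [Finset.mem_Icc, ← hord d hd]
    refine ⟨by omega, ?_⟩
    rw [← Set.ncard_univ]
    exact Set.ncard_le_ncard (Set.subset_univ _) (Set.toFinite _)
  unfold meanSubtreeOrder
  simp only [count_param D φ ord hinj htree hsurj hord]
  congr 1
  · rw [← Finset.sum_fiberwise_of_maps_to hmaps]
    push_cast
    refine Finset.sum_congr rfl fun k _ => ?_
    rw [Finset.sum_congr rfl (g := fun _ => (k : ℚ)), Finset.sum_const, nsmul_eq_mul, mul_comm]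
    intro d hd
    rw [(Finset.mem_filter.mp hd).2]
  · rw [Finset.card_eq_sum_card_fiberwise hmaps]
    push_cast
    rfl

end param

end general

section model
variable {c : ℕ} [NeZero c] {L : Type}

/-- A cycle on `ZMod c` with a set `L` of pendant vertices, `l` being attached at `f l`. -/
def starred (f : L → ZMod c) : SimpleGraph (ZMod c ⊕ L) where
  Adj x y := match x, y with
    | Sum.inl a, Sum.inl b => a ≠ b ∧ (b = a + 1 ∨ a = b + 1)
    | Sum.inl a, Sum.inr l => f l = a
    | Sum.inr l, Sum.inl a => f l = a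
    | Sum.inr _, Sum.inr _ => False
  symm := ⟨by
    rintro (a | l) (b | m) h
    · exact ⟨h.1.symm, h.2.symm⟩
    · exact h
    · exact h
    · exact h⟩
  loopless := ⟨by
    rintro (a | l) h
    · exact h.1 rfl
    · exact h⟩

lemma val_add_one' (hc : 2 ≤ c) (x : ZMod c) : (x + 1).val = if x.val + 1 = c then 0 else x.val + 1 := by
  have hx := ZMod.val_lt x
  have h1 : (1 : ZMod c).val = 1 := by
    rw [ZMod.val_one_eq_one_mod, Nat.mod_eq_of_lt (by omega)]
  rw [ZMod.val_add, h1]
  split_ifs with h
  · rw [h, Nat.mod_self]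
  · exact Nat.mod_eq_of_lt (by omega)

/-- The subtree consisting of the arc `i, i+1, …, i+k` and the pendant vertices of `A`
attached to it. -/
def arcTree (f : L → ZMod c) (i : ZMod c) (k : ℕ) (A : Set L) : (starred f).Subgraph where
  verts := {x | match x with
    | Sum.inl a => (a - i).val ≤ k
    | Sum.inr l => l ∈ A ∧ (f l - i).val ≤ k}
  Adj x y := match x, y with
    | Sum.inl a, Sum.inl b => a ≠ b ∧ (b = a + 1 ∧ (a - i).val < k ∨ a = b + 1 ∧ (b - i).val < k)
    | Sum.inl a, Sum.inr l => f l = a ∧ l ∈ A ∧ (f l - i).val ≤ k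
    | Sum.inr l, Sum.inl a => f l = a ∧ l ∈ A ∧ (f l - i).val ≤ k
    | Sum.inr _, Sum.inr _ => False
  adj_sub := by
    rintro (a | l) (b | m) h
    · exact ⟨h.1, h.2.imp And.left And.left⟩
    · exact h.1
    · exact h.1
    · exact h
  edge_vert := by
    rintro (a | l) (b | m) h
    · obtain ⟨hne, (⟨rfl, h⟩ | ⟨rfl, h⟩)⟩ := h
      · exact h.le
      · show (b + 1 - i).val ≤ k
        have : b + 1 - i = (b - i) + 1 := by ring
        rw [this]
        have hc : 2 ≤ c := by
          by_contra hcon
          have h0 : c ≠ 0 := NeZero.ne c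
          have : c = 1 := by omega
          subst this
          exact hne (Subsingleton.elim _ _)
        rw [val_add_one' hc]
        split_ifs <;> omega
    · show (a - i).val ≤ k
      rw [← h.1]; exact h.2.2
    · exact ⟨h.2.1, h.2.2⟩
    · exact h.elim
  symm := ⟨by
    rintro (a | l) (b | m) h
    · exact ⟨h.1.symm, h.2.symm⟩
    · exact h
    · exact h
    · exact h⟩


section steps

variable (f : L → ZMod c)

lemma val_sub_inj {a b i : ZMod c} : (a - i).val = (b - i).val ↔ a = b := by
  constructor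
  · intro h
    have := ZMod.val_injective c h
    exact sub_left_injective this
  · rintro rfl; rfl

lemma val_succ (hc : 2 ≤ c) (a i : ZMod c) :
    (a + 1 - i).val = if (a - i).val + 1 = c then 0 else (a - i).val + 1 := by
  rw [← val_add_one' hc]; congr 1; ring

lemma val_shift (hc : 2 ≤ c) (a i : ZMod c) :
    (a - (i - 1)).val = if (a - i).val + 1 = c then 0 else (a - i).val + 1 := by
  rw [← val_add_one' hc]; congr 1; ring

lemma arcTree_zero (i : ZMod c) : arcTree f i 0 ∅ = (starred f).singletonSubgraph (Sum.inl i) := by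
  ext x y
  · rcases x with a | l
    · simp only [arcTree, Set.mem_ofPred_eq, singletonSubgraph_verts, Set.mem_singleton_iff,
        Nat.le_zero, ZMod.val_eq_zero, sub_eq_zero, Sum.inl.injEq]
    · simp [arcTree]
  · rcases x with a | l <;> rcases y with b | m <;> simp [arcTree]

lemma arcTree_leaf {i : ZMod c} {k : ℕ} {A : Set L} {l : L} (hl : (f l - i).val ≤ k)
    (h : (starred f).Adj (Sum.inl (f l)) (Sum.inr l)) :
    arcTree f i k A ⊔ (starred f).subgraphOfAdj h = arcTree f i k (insert l A) := by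
  ext x y
  · rcases x with a | m
    · simp only [arcTree, Subgraph.verts_sup, Set.mem_union, Set.mem_ofPred_eq, subgraphOfAdj_verts,
        Set.mem_insert_iff, Set.mem_singleton_iff, Sum.inl.injEq, reduceCtorEq, or_false]
      constructor
      · rintro (h | rfl)
        · exact h
        · exact hl
      · exact Or.inl
    · simp only [arcTree, Subgraph.verts_sup, Set.mem_union, Set.mem_ofPred_eq, subgraphOfAdj_verts,
        Set.mem_insert_iff, Set.mem_singleton_iff, Sum.inr.injEq, reduceCtorEq, false_or]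
      constructor
      · rintro (h | rfl)
        · exact ⟨Or.inr h.1, h.2⟩
        · exact ⟨Or.inl rfl, hl⟩
      · rintro ⟨rfl | h1, h2⟩
        · exact Or.inr rfl
        · exact Or.inl ⟨h1, h2⟩
  · rcases x with a | m <;> rcases y with b | m'
    · simp [arcTree]
    · simp only [arcTree, Subgraph.sup_adj, subgraphOfAdj_adj, Sym2.eq_iff, Set.mem_insert_iff,
        Sum.inl.injEq, Sum.inr.injEq, reduceCtorEq, and_false, or_false, false_and]
      constructor
      · rintro (⟨h1, h2, h3⟩ | ⟨rfl, rfl⟩)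
        · exact ⟨h1, Or.inr h2, h3⟩
        · exact ⟨rfl, Or.inl rfl, hl⟩
      · rintro ⟨h1, rfl | h2, h3⟩
        · exact Or.inr ⟨h1, rfl⟩
        · exact Or.inl ⟨h1, h2, h3⟩
    · simp only [arcTree, Subgraph.sup_adj, subgraphOfAdj_adj, Sym2.eq_iff, Set.mem_insert_iff,
        Sum.inl.injEq, Sum.inr.injEq, reduceCtorEq, and_false, or_false, false_and, false_or]
      constructor
      · rintro (⟨h1, h2, h3⟩ | ⟨rfl, rfl⟩)
        · exact ⟨h1, Or.inr h2, h3⟩
        · exact ⟨rfl, Or.inl rfl, hl⟩
      · rintro ⟨h1, rfl | h2, h3⟩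
        · exact Or.inr ⟨h1, rfl⟩
        · exact Or.inl ⟨h1, h2, h3⟩
    · simp [arcTree]

lemma arcTree_end (hc : 2 ≤ c) {i : ZMod c} {k : ℕ} {A : Set L} {a0 : ZMod c} (ha0 : (a0 - i).val = k)
    (hk : k + 1 < c) (hA : ∀ l ∈ A, (f l - i).val ≤ k)
    (h : (starred f).Adj (Sum.inl a0) (Sum.inl (a0 + 1))) :
    arcTree f i k A ⊔ (starred f).subgraphOfAdj h = arcTree f i (k + 1) A := by
  have key : ∀ a : ZMod c, (a - i).val = k ↔ a = a0 := by
    intro a; rw [← ha0]; exact val_sub_inj
  have key1 : ∀ a : ZMod c, (a - i).val = k + 1 ↔ a = a0 + 1 := by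
    intro a
    have : (a0 + 1 - i).val = k + 1 := by
      rw [val_succ hc, ha0, if_neg (by omega)]
    rw [← this]; exact val_sub_inj
  ext x y
  · rcases x with a | m
    · simp only [arcTree, Subgraph.verts_sup, Set.mem_union, Set.mem_ofPred_eq, subgraphOfAdj_verts,
        Set.mem_insert_iff, Set.mem_singleton_iff, Sum.inl.injEq]
      rw [← key, ← key1]
      omega
    · simp only [arcTree, Subgraph.verts_sup, Set.mem_union, Set.mem_ofPred_eq, subgraphOfAdj_verts,
        Set.mem_insert_iff, Set.mem_singleton_iff, reduceCtorEq, or_false]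
      constructor
      · rintro ⟨h1, h2⟩; exact ⟨h1, by omega⟩
      · rintro ⟨h1, h2⟩; exact ⟨h1, hA m h1⟩
  · rcases x with a | m <;> rcases y with b | m'
    · simp only [arcTree, Subgraph.sup_adj, subgraphOfAdj_adj, Sym2.eq_iff, Sum.inl.injEq]
      constructor
      · rintro (⟨h1, h2⟩ | ⟨rfl, rfl⟩ | ⟨rfl, rfl⟩)
        · exact ⟨h1, h2.imp (fun h => ⟨h.1, by omega⟩) (fun h => ⟨h.1, by omega⟩)⟩
        · exact ⟨h.1, Or.inl ⟨rfl, by omega⟩⟩
        · exact ⟨h.1.symm, Or.inr ⟨rfl, by omega⟩⟩
      · rintro ⟨h1, ⟨h2, h3⟩ | ⟨h2, h3⟩⟩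
        · by_cases hk : (a - i).val = k
          · rw [key] at hk
            subst hk
            exact Or.inr (Or.inl ⟨rfl, h2.symm⟩)
          · exact Or.inl ⟨h1, Or.inl ⟨h2, by omega⟩⟩
        · by_cases hk : (b - i).val = k
          · rw [key] at hk
            subst hk
            exact Or.inr (Or.inr ⟨rfl, h2.symm⟩)
          · exact Or.inl ⟨h1, Or.inr ⟨h2, by omega⟩⟩
    · simp only [arcTree, Subgraph.sup_adj, subgraphOfAdj_adj, Sym2.eq_iff,
        reduceCtorEq, and_false, false_and, or_false]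
      constructor
      · rintro ⟨h1, h2, h3⟩; exact ⟨h1, h2, by omega⟩
      · rintro ⟨h1, h2, h3⟩; exact ⟨h1, h2, hA _ h2⟩
    · simp only [arcTree, Subgraph.sup_adj, subgraphOfAdj_adj, Sym2.eq_iff,
        reduceCtorEq, false_and, and_false, or_false]
      constructor
      · rintro ⟨h1, h2, h3⟩; exact ⟨h1, h2, by omega⟩
      · rintro ⟨h1, h2, h3⟩; exact ⟨h1, h2, hA _ h2⟩
    · simp [arcTree]

lemma arcTree_start (hc : 2 ≤ c) {i : ZMod c} {k : ℕ} {A : Set L}
    (hk : k + 1 < c) (hA : ∀ l ∈ A, (f l - i).val ≤ k)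
    (h : (starred f).Adj (Sum.inl i) (Sum.inl (i - 1))) :
    arcTree f i k A ⊔ (starred f).subgraphOfAdj h = arcTree f (i - 1) (k + 1) A := by
  have key : ∀ a : ZMod c, (a - i).val = 0 ↔ a = i := by
    intro a; rw [ZMod.val_eq_zero, sub_eq_zero]
  have hm : (i - 1 - i).val + 1 = c := by
    have h1 := val_succ hc (i - 1) i
    have h2 : i - 1 + 1 - i = 0 := by ring
    rw [h2, ZMod.val_zero] at h1
    split_ifs at h1 with h3
    exact h3
  have key1 : ∀ a : ZMod c, (a - i).val + 1 = c ↔ a = i - 1 := by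
    intro a
    constructor
    · intro h
      rw [← val_sub_inj (i := i)]; omega
    · rintro rfl; exact hm
  have key2 : ∀ (a : ZMod c) (m : ℕ), (a - (i - 1)).val ≤ m + 1 ↔ (a - i).val ≤ m ∨ a = i - 1 := by
    intro a m
    rw [val_shift hc, ← key1]
    have := ZMod.val_lt (a - i)
    split_ifs <;> omega
  have key3 : ∀ (a : ZMod c) (m : ℕ), (a - (i - 1)).val < m + 1 ↔ (a - i).val < m ∨ a = i - 1 := by
    intro a m
    rw [val_shift hc, ← key1]
    have := ZMod.val_lt (a - i)
    split_ifs <;> omega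
  ext x y
  · rcases x with a | m
    · simp only [arcTree, Subgraph.verts_sup, Set.mem_union, Set.mem_ofPred_eq, subgraphOfAdj_verts,
        Set.mem_insert_iff, Set.mem_singleton_iff, Sum.inl.injEq, key2]
      constructor
      · rintro (h | rfl | h)
        · exact Or.inl h
        · left; simp
        · exact Or.inr h
      · rintro (h | h)
        · exact Or.inl h
        · exact Or.inr (Or.inr h)
    · simp only [arcTree, Subgraph.verts_sup, Set.mem_union, Set.mem_ofPred_eq, subgraphOfAdj_verts,
        Set.mem_insert_iff, Set.mem_singleton_iff, reduceCtorEq, or_false, key2]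
      constructor
      · rintro ⟨h1, h2⟩; exact ⟨h1, Or.inl h2⟩
      · rintro ⟨h1, h2⟩; exact ⟨h1, hA m h1⟩
  · rcases x with a | m <;> rcases y with b | m'
    · simp only [arcTree, Subgraph.sup_adj, subgraphOfAdj_adj, Sym2.eq_iff, Sum.inl.injEq, key3]
      constructor
      · rintro (⟨h1, h2⟩ | ⟨rfl, rfl⟩ | ⟨rfl, rfl⟩)
        · exact ⟨h1, h2.imp (fun h => ⟨h.1, Or.inl h.2⟩) (fun h => ⟨h.1, Or.inl h.2⟩)⟩
        · exact ⟨h.1, Or.inr ⟨by ring, Or.inr rfl⟩⟩
        · exact ⟨h.1.symm, Or.inl ⟨by ring, Or.inr rfl⟩⟩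
      · rintro ⟨h1, ⟨h2, h3 | h3⟩ | ⟨h2, h3 | h3⟩⟩
        · exact Or.inl ⟨h1, Or.inl ⟨h2, h3⟩⟩
        · subst h3
          refine Or.inr (Or.inr ⟨?_, rfl⟩)
          rw [h2]; ring
        · exact Or.inl ⟨h1, Or.inr ⟨h2, h3⟩⟩
        · subst h3
          refine Or.inr (Or.inl ⟨?_, rfl⟩)
          rw [h2]; ring
    · simp only [arcTree, Subgraph.sup_adj, subgraphOfAdj_adj, Sym2.eq_iff,
        reduceCtorEq, and_false, false_and, or_false, key2]
      constructor
      · rintro ⟨h1, h2, h3⟩; exact ⟨h1, h2, Or.inl h3⟩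
      · rintro ⟨h1, h2, h3⟩; exact ⟨h1, h2, hA _ h2⟩
    · simp only [arcTree, Subgraph.sup_adj, subgraphOfAdj_adj, Sym2.eq_iff,
        reduceCtorEq, false_and, and_false, or_false, key2]
      constructor
      · rintro ⟨h1, h2, h3⟩; exact ⟨h1, h2, Or.inl h3⟩
      · rintro ⟨h1, h2, h3⟩; exact ⟨h1, h2, hA _ h2⟩
    · simp [arcTree]

lemma arcTree_norm (i : ZMod c) (k : ℕ) (A : Set L) :
    arcTree f i k A = arcTree f i k {l | l ∈ A ∧ (f l - i).val ≤ k} := by
  ext x y
  · rcases x with a | m
    · simp [arcTree]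
    · simp only [arcTree, Set.mem_ofPred_eq]; tauto
  · rcases x with a | m <;> rcases y with b | m'
    · simp [arcTree]
    · simp only [arcTree, Set.mem_ofPred_eq]; tauto
    · simp only [arcTree, Set.mem_ofPred_eq]; tauto
    · simp [arcTree]


/-- The family of all subtrees of `starred f`. -/
def Fam (T : (starred f).Subgraph) : Prop :=
  (∃ (i : ZMod c) (k : ℕ) (A : Set L), k < c ∧ (∀ l ∈ A, (f l - i).val ≤ k) ∧ T = arcTree f i k A) ∨
    ∃ l, T = (starred f).singletonSubgraph (Sum.inr l)

lemma fam_of_grow (hc : 2 ≤ c) {T : (starred f).Subgraph} (hT : Grow (starred f) T) : Fam f T := by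
  induction hT with
  | single v =>
    rcases v with a | l
    · exact Or.inl ⟨a, 0, ∅, by omega, by simp, (arcTree_zero f a).symm⟩
    · exact Or.inr ⟨l, rfl⟩
  | add T p q h _ hp hq ih =>
    rcases ih with ⟨i, k, A, hk, hA, rfl⟩ | ⟨l, rfl⟩
    · rcases p with a | l <;> rcases q with b | m
      · have hp' : (a - i).val ≤ k := hp
        have hq' : k < (b - i).val := not_le.mp hq
        rcases h with ⟨hne, rfl | hb⟩
        · -- extension at the end
          have h1 := val_succ hc a i
          have h2 := ZMod.val_lt (a + 1 - i)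
          have ha : (a - i).val = k := by
            split_ifs at h1 <;> omega
          have hk' : k + 1 < c := by
            split_ifs at h1 <;> omega
          left
          refine ⟨i, k + 1, A, hk', fun l hl => (hA l hl).trans (Nat.le_succ k), ?_⟩
          exact arcTree_end f hc ha hk' hA _
        · have h1 := val_succ hc b i
          have h2 := ZMod.val_lt (b - i)
          rw [← hb] at h1
          have ha : (a - i).val = 0 := by
            split_ifs at h1 <;> omega
          have hk' : k + 1 < c := by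
            split_ifs at h1 <;> omega
          rw [ZMod.val_eq_zero, sub_eq_zero] at ha
          subst ha
          have hb' : b = a - 1 := by rw [hb]; ring
          subst hb'
          left
          refine ⟨a - 1, k + 1, A, hk', fun l hl => ?_, arcTree_start f hc hk' hA _⟩
          have := hA l hl
          rw [val_shift hc]
          split_ifs <;> omega
      · have h' : f m = a := h
        subst h'
        left
        refine ⟨i, k, insert m A, hk, ?_, arcTree_leaf f hp h⟩
        rintro l (rfl | hl)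
        · exact hp
        · exact hA l hl
      · exfalso
        have h' : f l = b := h
        subst h'
        exact hq hp.2
      · exact h.elim
    · rcases p with a | m
      · simp at hp
      · rcases q with b | m'
        · simp only [singletonSubgraph_verts, Set.mem_singleton_iff, Sum.inr.injEq] at hp
          subst hp
          have h' : f m = b := h
          subst h'
          left
          refine ⟨f m, 0, {m}, by omega, ?_, ?_⟩
          · rintro l rfl; simp
          · have h0 := arcTree_leaf f (i := f m) (k := 0) (A := ∅) (l := m) (by simp) h.symm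
            rw [arcTree_zero, insert_empty_eq] at h0
            rw [← h0, ← subgraphOfAdj_symm h]
            ext x y
            · simp only [Subgraph.verts_sup, singletonSubgraph_verts, subgraphOfAdj_verts,
                Set.mem_union, Set.mem_singleton_iff, Set.mem_insert_iff]
              tauto
            · simp only [Subgraph.sup_adj, singletonSubgraph_adj]
        · exact h.elim

lemma grow_arc (hc : 2 ≤ c) (i : ZMod c) (k : ℕ) (hk : k < c) :
    Grow (starred f) (arcTree f i k ∅) ∧ (arcTree f i k ∅).verts.ncard = k + 1 := by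
  induction k with
  | zero => rw [arcTree_zero]; exact ⟨Grow.single _, by simp⟩
  | succ k ih =>
    obtain ⟨ih1, ih2⟩ := ih (by omega)
    have ha0 : ((i + k) - i).val = k := by
      rw [add_sub_cancel_left, ZMod.val_natCast, Nat.mod_eq_of_lt (by omega)]
    have hv : (i + (k : ZMod c) + 1 - i).val = k + 1 := by
      rw [val_succ hc, ha0, if_neg (by omega)]
    have hadj : (starred f).Adj (Sum.inl (i + k)) (Sum.inl (i + k + 1)) := by
      refine ⟨?_, Or.inl rfl⟩
      intro h
      rw [← h, ha0] at hv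
      omega
    rw [← arcTree_end f hc ha0 hk (by simp) hadj]
    have h1 : (Sum.inl (i + k) : ZMod c ⊕ L) ∈ (arcTree f i k ∅).verts := ha0.le
    have h2 : (Sum.inl (i + k + 1) : ZMod c ⊕ L) ∉ (arcTree f i k ∅).verts := by
      intro h
      have h' : (i + (k : ZMod c) + 1 - i).val ≤ k := h
      omega
    refine ⟨Grow.add _ _ _ hadj ih1 h1 h2, ?_⟩
    have hfin : (arcTree f i k ∅).verts.Finite := by
      apply Set.finite_of_ncard_ne_zero
      omega
    rw [verts_add _ _ h1, Set.ncard_insert_of_notMem h2 hfin, ih2]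

lemma grow_arcTree [DecidableEq L] (hc : 2 ≤ c) (i : ZMod c) (k : ℕ) (hk : k < c) (A : Finset L)
    (hA : ∀ l ∈ A, (f l - i).val ≤ k) :
    Grow (starred f) (arcTree f i k A) ∧ (arcTree f i k A).verts.ncard = k + 1 + A.card := by
  induction A using Finset.induction_on with
  | empty => simpa using grow_arc f hc i k hk
  | insert l A hl ih =>
    obtain ⟨ih1, ih2⟩ := ih (fun m hm => hA m (Finset.mem_insert_of_mem hm))
    have hl' := hA l (Finset.mem_insert_self l A)
    have hadj : (starred f).Adj (Sum.inl (f l)) (Sum.inr l) := rfl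
    have h1 : (Sum.inl (f l) : ZMod c ⊕ L) ∈ (arcTree f i k A).verts := hl'
    have h2 : (Sum.inr l : ZMod c ⊕ L) ∉ (arcTree f i k A).verts := fun h => hl h.1
    rw [Finset.coe_insert, ← arcTree_leaf f hl' hadj]
    refine ⟨Grow.add _ _ _ hadj ih1 h1 h2, ?_⟩
    have hfin : (arcTree f i k A).verts.Finite := by
      apply Set.finite_of_ncard_ne_zero
      omega
    rw [verts_add _ _ h1, Set.ncard_insert_of_notMem h2 hfin, ih2, Finset.card_insert_of_notMem hl]
    ring

end steps

end model

section count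

variable {c : ℕ} [NeZero c] {L : Type} [Fintype L] [DecidableEq L] (f : L → ZMod c)

/-- Pendant vertices attached to the arc. -/
def att (i : ZMod c) (k : ℕ) : Finset L := Finset.univ.filter (fun l => (f l - i).val ≤ k)

/-- Index set of all subtrees. -/
def idx : Finset ((Σ _ : ZMod c × ℕ, Finset L) ⊕ L) :=
  (((Finset.univ : Finset (ZMod c)) ×ˢ Finset.range c).sigma
    (fun ik => (att f ik.1 ik.2).powerset)).disjSum Finset.univ

/-- The subtree attached to an index. -/
def par : ((Σ _ : ZMod c × ℕ, Finset L) ⊕ L) → (starred f).Subgraph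
  | Sum.inl d => arcTree f d.1.1 d.1.2 (d.2 : Set L)
  | Sum.inr l => (starred f).singletonSubgraph (Sum.inr l)

/-- Its order. -/
def ordr : ((Σ _ : ZMod c × ℕ, Finset L) ⊕ L) → ℕ
  | Sum.inl d => d.1.2 + 1 + d.2.card
  | Sum.inr _ => 1

lemma mem_idx_inl {i : ZMod c} {k : ℕ} {A : Finset L} :
    (Sum.inl ⟨(i, k), A⟩ : (Σ _ : ZMod c × ℕ, Finset L) ⊕ L) ∈ idx f ↔
      k < c ∧ ∀ l ∈ A, (f l - i).val ≤ k := by
  simp only [idx, Finset.inl_mem_disjSum, Finset.mem_sigma, Finset.mem_product, Finset.mem_univ,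
    Finset.mem_range, true_and, Finset.mem_powerset, att, Finset.subset_iff, Finset.mem_filter]

lemma arc_start_unique (hc : 3 ≤ c) {i i' : ZMod c} {k k' : ℕ} (hk : k < c) (hk' : k' < c)
    {A A' : Set L} (h : arcTree f i k A = arcTree f i' k' A') : i = i' := by
  by_contra hne
  have h1 : (Sum.inl i : ZMod c ⊕ L) ∈ (arcTree f i' k' A').verts := by
    rw [← h]
    show (i - i).val ≤ k
    simp
  have h1' : (i - i').val ≤ k' := h1
  have h0 : (i - i').val ≠ 0 := by
    rw [Ne, ZMod.val_eq_zero, sub_eq_zero]; exact hne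
  have h2 := val_succ (by omega : 2 ≤ c) (i - 1) i'
  have h3 : i - 1 + 1 = i := by ring
  rw [h3] at h2
  have h4 : (i - 1 - i').val < k' := by
    split_ifs at h2 <;> omega
  have h5 : (arcTree f i' k' A').Adj (Sum.inl (i - 1)) (Sum.inl i) := by
    refine ⟨?_, Or.inl ⟨h3.symm, h4⟩⟩
    intro h
    rw [h] at h4
    have : (i - 1 - i').val + 1 = (i - i').val := by
      split_ifs at h2 <;> omega
    rw [h] at this
    omega
  rw [← h] at h5
  obtain ⟨_, ⟨_, h6⟩ | ⟨h6, _⟩⟩ := h5
  · have h7 := val_succ (by omega : 2 ≤ c) (i - 1) i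
    rw [h3, sub_self, ZMod.val_zero] at h7
    split_ifs at h7 with h8
    omega
  · have h7 : ((2 : ℕ) : ZMod c) = 0 := by
      have : i + 1 - (i - 1) = 0 := by rw [← h6]; ring
      have h9 : i + 1 - (i - 1) = ((2 : ℕ) : ZMod c) := by push_cast; ring
      rw [← h9]; exact this
    rw [ZMod.natCast_eq_zero_iff] at h7
    have := Nat.le_of_dvd (by omega) h7
    omega

lemma par_injOn (hc : 3 ≤ c) : Set.InjOn (par f) (idx f) := by
  rintro (⟨⟨i, k⟩, A⟩ | l) hd (⟨⟨i', k'⟩, A'⟩ | l') hd' h
  · rw [Finset.mem_coe, mem_idx_inl] at hd hd'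
    have h' : arcTree f i k (A : Set L) = arcTree f i' k' (A' : Set L) := h
    have hi := arc_start_unique f hc hd.1 hd'.1 h'
    subst hi
    have hA : A = A' := by
      ext l
      have hmem : (Sum.inr l : ZMod c ⊕ L) ∈ (arcTree f i k (A : Set L)).verts ↔
        (Sum.inr l : ZMod c ⊕ L) ∈ (arcTree f i k' (A' : Set L)).verts := by rw [h']
      constructor
      · intro hl
        exact (hmem.mp ⟨hl, hd.2 l hl⟩).1
      · intro hl
        exact (hmem.mpr ⟨hl, hd'.2 l hl⟩).1
    subst hA
    have h1 := (grow_arcTree f (by omega) i k hd.1 A hd.2).2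
    have h2 := (grow_arcTree f (by omega) i k' hd'.1 A hd'.2).2
    rw [h', h2] at h1
    have : k = k' := by omega
    subst this
    rfl
  · exfalso
    have h' : arcTree f i k (A : Set L) = (starred f).singletonSubgraph (Sum.inr l') := h
    have : (Sum.inl i : ZMod c ⊕ L) ∈ (arcTree f i k (A : Set L)).verts := by
      show (i - i).val ≤ k
      simp
    rw [h'] at this
    simp at this
  · exfalso
    have h' : (starred f).singletonSubgraph (Sum.inr l) = arcTree f i' k' (A' : Set L) := h
    have : (Sum.inl i' : ZMod c ⊕ L) ∈ (arcTree f i' k' (A' : Set L)).verts := by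
      show (i' - i').val ≤ k'
      simp
    rw [← h'] at this
    simp at this
  · have h' : (starred f).singletonSubgraph (Sum.inr l) = (starred f).singletonSubgraph (Sum.inr l') := h
    have : (Sum.inr l : ZMod c ⊕ L) ∈ ((starred f).singletonSubgraph (Sum.inr l')).verts := by
      rw [← h']; simp
    simp only [singletonSubgraph_verts, Set.mem_singleton_iff, Sum.inr.injEq] at this
    rw [this]

lemma mean_starred (hc : 3 ≤ c) :
    meanSubtreeOrder (starred f) = ((∑ d ∈ idx f, ordr d : ℕ) : ℚ) / ((idx f).card : ℚ) := by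
  apply mean_param (idx f) (par f) ordr (par_injOn f hc)
  · rintro (⟨⟨i, k⟩, A⟩ | l) hd
    · rw [mem_idx_inl] at hd
      rw [tree_iff_grow]
      exact (grow_arcTree f (by omega) i k hd.1 A hd.2).1
    · rw [tree_iff_grow]
      exact Grow.single _
  · intro T hT
    rw [tree_iff_grow] at hT
    rcases fam_of_grow f (by omega) hT with ⟨i, k, A, hk, hA, rfl⟩ | ⟨l, rfl⟩
    · classical
      refine ⟨Sum.inl ⟨(i, k), A.toFinset⟩, ?_, ?_⟩
      · rw [mem_idx_inl]
        exact ⟨hk, fun l hl => hA l (by simpa using hl)⟩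
      · show arcTree f i k (A.toFinset : Set L) = _
        rw [Set.coe_toFinset]
    · exact ⟨Sum.inr l, by simp [idx], rfl⟩
  · rintro (⟨⟨i, k⟩, A⟩ | l) hd
    · rw [mem_idx_inl] at hd
      exact (grow_arcTree f (by omega) i k hd.1 A hd.2).2
    · show ((starred f).singletonSubgraph (Sum.inr l)).verts.ncard = 1
      simp

lemma sum_powerset_card (M : Finset L) (a : ℕ) :
    2 * ∑ A ∈ M.powerset, (a + A.card) = 2 ^ M.card * (2 * a + M.card) := by
  induction M using Finset.induction_on generalizing a with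
  | empty => simp
  | insert x M hx ih =>
    rw [Finset.sum_powerset_insert hx, mul_add, ih]
    have : ∑ t ∈ M.powerset, (a + (insert x t).card) = ∑ t ∈ M.powerset, ((a + 1) + t.card) := by
      refine Finset.sum_congr rfl fun t ht => ?_
      rw [Finset.card_insert_of_notMem (fun h => hx (Finset.mem_powerset.mp ht h))]
      ring
    rw [this, ih, Finset.card_insert_of_notMem hx]
    ring

lemma card_idx : (idx f).card = ∑ i : ZMod c, ∑ k ∈ Finset.range c, 2 ^ (att f i k).card
    + Fintype.card L := by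
  unfold idx
  rw [Finset.card_disjSum, Finset.card_sigma, Finset.sum_product]
  simp

lemma sum_idx : 2 * ∑ d ∈ idx f, ordr d = ∑ i : ZMod c, ∑ k ∈ Finset.range c,
    2 ^ (att f i k).card * (2 * (k + 1) + (att f i k).card) + 2 * Fintype.card L := by
  unfold idx
  rw [Finset.sum_disjSum, Finset.sum_sigma, Finset.sum_product, mul_add]
  congr 1
  · rw [Finset.mul_sum]
    refine Finset.sum_congr rfl fun i _ => ?_
    rw [Finset.mul_sum]
    refine Finset.sum_congr rfl fun k _ => ?_
    exact sum_powerset_card (att f i k) (k + 1)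
  · simp [ordr]

end count

end Pool.Agent.H136.Subtrees
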