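import Mathlib

set_option autoImplicit false

namespace Pool.Agent.H136.SunMixing

/-- `(k,q)`-colourings: values in `{0,…,k-1}`, adjacent values at distance between `q` and
`k - q` -/
def IsCol {V : Type} (G : SimpleGraph V) (k q : ℕ) (f : V → ℤ) : Prop :=
  (∀ v, 0 ≤ f v ∧ f v < k) ∧
    ∀ u v, G.Adj u v → (q : ℤ) ≤ |f u - f v| ∧ |f u - f v| ≤ (k : ℤ) - q

/-- one move between `(k,q)`-colourings: the value of one vertex may be changed -/
def Move {V : Type} (G : SimpleGraph V) (k q : ℕ) (f g : V → ℤ) : Prop :=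
  IsCol G k q f ∧ IsCol G k q g ∧ ∃ v, ∀ u, u ≠ v → g u = f u

/-- `G` is `(k,q)`-mixing -/
def Mixing {V : Type} (G : SimpleGraph V) (k q : ℕ) : Prop :=
  ∀ f g, IsCol G k q f → IsCol G k q g → Relation.ReflTransGen (Move G k q) f g

/-- distance between `q` and `k - q` -/
def D (k q : ℕ) (a b : ℤ) : Prop := (q : ℤ) ≤ |a - b| ∧ |a - b| ≤ (k : ℤ) - q

/-- in range -/
def Rg (k : ℕ) (a : ℤ) : Prop := 0 ≤ a ∧ a < k

/-- the edges: `x y z` a triangle (`0 1 2`), tips `A B C` (`3 4 5`), apex `w` (`6`) -/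
def edges : List (Fin 7 × Fin 7) :=
  [(0, 1), (0, 2), (1, 2), (3, 1), (3, 2), (4, 0), (4, 2), (5, 0), (5, 1), (6, 3), (6, 4), (6, 5)]

/-- the graph: the `3`-sun with a vertex joined to its three tips -/
def sun : SimpleGraph (Fin 7) where
  Adj u v := (u, v) ∈ edges ∨ (v, u) ∈ edges
  symm := ⟨fun _ _ h => h.symm⟩
  loopless := ⟨by unfold edges; decide⟩

instance : DecidableRel sun.Adj := fun u v => by unfold sun; infer_instance

/-- a colouring given by its seven values -/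
def tup (x y z A B C w : ℤ) : Fin 7 → ℤ
  | 0 => x
  | 1 => y
  | 2 => z
  | 3 => A
  | 4 => B
  | 5 => C
  | 6 => w

/-- explicit form of being a colouring -/
structure Good (k q : ℕ) (x y z A B C w : ℤ) : Prop where
  rx : Rg k x
  ry : Rg k y
  rz : Rg k z
  rA : Rg k A
  rB : Rg k B
  rC : Rg k C
  rw' : Rg k w
  xy : D k q x y
  xz : D k q x z
  yz : D k q y z
  Ay : D k q A y
  Az : D k q A z
  Bx : D k q B x
  Bz : D k q B z
  Cx : D k q C x
  Cy : D k q C y
  wA : D k q w A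
  wB : D k q w B
  wC : D k q w C

variable {k q : ℕ}

lemma D.symm {a b : ℤ} (h : D k q a b) : D k q b a := by
  unfold D at *
  rwa [abs_sub_comm]

lemma isCol_tup {x y z A B C w : ℤ} (h : Good k q x y z A B C w) :
    IsCol sun k q (tup x y z A B C w) := by
  constructor
  · intro v
    exact match v with
    | 0 => h.rx
    | 1 => h.ry
    | 2 => h.rz
    | 3 => h.rA
    | 4 => h.rB
    | 5 => h.rC
    | 6 => h.rw'
  · have key : ∀ u v, (u, v) ∈ edges → D k q (tup x y z A B C w u) (tup x y z A B C w v) := by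
      intro u v huv
      unfold edges at huv
      simp only [List.mem_cons, Prod.mk.injEq, List.not_mem_nil, or_false] at huv
      rcases huv with ⟨rfl, rfl⟩ | ⟨rfl, rfl⟩ | ⟨rfl, rfl⟩ | ⟨rfl, rfl⟩ | ⟨rfl, rfl⟩ |
        ⟨rfl, rfl⟩ | ⟨rfl, rfl⟩ | ⟨rfl, rfl⟩ | ⟨rfl, rfl⟩ | ⟨rfl, rfl⟩ | ⟨rfl, rfl⟩ | ⟨rfl, rfl⟩
      · exact h.xy
      · exact h.xz
      · exact h.yz
      · exact h.Ay
      · exact h.Az
      · exact h.Bx
      · exact h.Bz
      · exact h.Cx
      · exact h.Cy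
      · exact h.wA
      · exact h.wB
      · exact h.wC
    intro u v huv
    rcases huv with huv | huv
    · exact key u v huv
    · exact (key v u huv).symm

lemma good_of_isCol {f : Fin 7 → ℤ} (h : IsCol sun k q f) :
    Good k q (f 0) (f 1) (f 2) (f 3) (f 4) (f 5) (f 6) := by
  obtain ⟨h1, h2⟩ := h
  constructor
  · exact h1 0
  · exact h1 1
  · exact h1 2
  · exact h1 3
  · exact h1 4
  · exact h1 5
  · exact h1 6
  · exact h2 0 1 (by decide)
  · exact h2 0 2 (by decide)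
  · exact h2 1 2 (by decide)
  · exact h2 3 1 (by decide)
  · exact h2 3 2 (by decide)
  · exact h2 4 0 (by decide)
  · exact h2 4 2 (by decide)
  · exact h2 5 0 (by decide)
  · exact h2 5 1 (by decide)
  · exact h2 6 3 (by decide)
  · exact h2 6 4 (by decide)
  · exact h2 6 5 (by decide)

lemma tup_eta (f : Fin 7 → ℤ) : tup (f 0) (f 1) (f 2) (f 3) (f 4) (f 5) (f 6) = f := by
  funext v
  exact match v with
    | 0 => rfl
    | 1 => rfl
    | 2 => rfl
    | 3 => rfl
    | 4 => rfl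
    | 5 => rfl
    | 6 => rfl

/-- reachability -/
def Conn (k q : ℕ) (f g : Fin 7 → ℤ) : Prop := Relation.ReflTransGen (Move sun k q) f g

lemma Conn.symm {f g : Fin 7 → ℤ} (h : Conn k q f g) : Conn k q g f := by
  induction h with
  | refl => exact Relation.ReflTransGen.refl
  | tail _ hs ih =>
    obtain ⟨h1, h2, v, hv⟩ := hs
    exact Relation.ReflTransGen.head ⟨h2, h1, v, fun u hu => (hv u hu).symm⟩ ih

lemma Conn.trans {f g h : Fin 7 → ℤ} (h₁ : Conn k q f g) (h₂ : Conn k q g h) : Conn k q f h :=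
  Relation.ReflTransGen.trans h₁ h₂

section moves
variable {x y z A B C w x' y' z' A' B' C' w' : ℤ}

lemma mv (i : Fin 7) {f g : Fin 7 → ℤ} (hf : IsCol sun k q f) (hg : IsCol sun k q g)
    (h : ∀ u, u ≠ i → g u = f u) : Conn k q f g :=
  Relation.ReflTransGen.single ⟨hf, hg, i, h⟩

lemma mvx (h : Good k q x y z A B C w) (h' : Good k q x' y z A B C w) :
    Conn k q (tup x y z A B C w) (tup x' y z A B C w) :=
  mv 0 (isCol_tup h) (isCol_tup h') (fun u hu => match u, hu with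
    | 0, hu => absurd rfl hu
    | 1, _ => rfl
    | 2, _ => rfl
    | 3, _ => rfl
    | 4, _ => rfl
    | 5, _ => rfl
    | 6, _ => rfl)

lemma mvy (h : Good k q x y z A B C w) (h' : Good k q x y' z A B C w) :
    Conn k q (tup x y z A B C w) (tup x y' z A B C w) :=
  mv 1 (isCol_tup h) (isCol_tup h') (fun u hu => match u, hu with
    | 0, _ => rfl
    | 1, hu => absurd rfl hu
    | 2, _ => rfl
    | 3, _ => rfl
    | 4, _ => rfl
    | 5, _ => rfl
    | 6, _ => rfl)

lemma mvz (h : Good k q x y z A B C w) (h' : Good k q x y z' A B C w) :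
    Conn k q (tup x y z A B C w) (tup x y z' A B C w) :=
  mv 2 (isCol_tup h) (isCol_tup h') (fun u hu => match u, hu with
    | 0, _ => rfl
    | 1, _ => rfl
    | 2, hu => absurd rfl hu
    | 3, _ => rfl
    | 4, _ => rfl
    | 5, _ => rfl
    | 6, _ => rfl)

lemma mvA (h : Good k q x y z A B C w) (h' : Good k q x y z A' B C w) :
    Conn k q (tup x y z A B C w) (tup x y z A' B C w) :=
  mv 3 (isCol_tup h) (isCol_tup h') (fun u hu => match u, hu with
    | 0, _ => rfl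
    | 1, _ => rfl
    | 2, _ => rfl
    | 3, hu => absurd rfl hu
    | 4, _ => rfl
    | 5, _ => rfl
    | 6, _ => rfl)

lemma mvB (h : Good k q x y z A B C w) (h' : Good k q x y z A B' C w) :
    Conn k q (tup x y z A B C w) (tup x y z A B' C w) :=
  mv 4 (isCol_tup h) (isCol_tup h') (fun u hu => match u, hu with
    | 0, _ => rfl
    | 1, _ => rfl
    | 2, _ => rfl
    | 3, _ => rfl
    | 4, hu => absurd rfl hu
    | 5, _ => rfl
    | 6, _ => rfl)

lemma mvC (h : Good k q x y z A B C w) (h' : Good k q x y z A B C' w) :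
    Conn k q (tup x y z A B C w) (tup x y z A B C' w) :=
  mv 5 (isCol_tup h) (isCol_tup h') (fun u hu => match u, hu with
    | 0, _ => rfl
    | 1, _ => rfl
    | 2, _ => rfl
    | 3, _ => rfl
    | 4, _ => rfl
    | 5, hu => absurd rfl hu
    | 6, _ => rfl)

lemma mvw (h : Good k q x y z A B C w) (h' : Good k q x y z A B C w') :
    Conn k q (tup x y z A B C w) (tup x y z A B C w') :=
  mv 6 (isCol_tup h) (isCol_tup h') (fun u hu => match u, hu with
    | 0, _ => rfl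
    | 1, _ => rfl
    | 2, _ => rfl
    | 3, _ => rfl
    | 4, _ => rfl
    | 5, _ => rfl
    | 6, hu => absurd rfl hu)

end moves

/-- four values pairwise at distance between `q` and `k - q` -/
structure K4 (k q : ℕ) (a b c d : ℤ) : Prop where
  ra : Rg k a
  rb : Rg k b
  rc : Rg k c
  rd : Rg k d
  ab : D k q a b
  ac : D k q a c
  ad : D k q a d
  bc : D k q b c
  bd : D k q b d
  cd : D k q c d

/-- the folded colouring of the sun given by a colouring of `K₄` -/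
def st (a b c d : ℤ) : Fin 7 → ℤ := tup a b c a b c d

lemma K4.good {a b c d : ℤ} (h : K4 k q a b c d) : Good k q a b c a b c d :=
  ⟨h.ra, h.rb, h.rc, h.ra, h.rb, h.rc, h.rd, h.ab, h.ac, h.bc, h.ab, h.ac, h.ab.symm, h.bc,
    h.ac.symm, h.bc.symm, h.ad.symm, h.bd.symm, h.cd.symm⟩

/-- single moves of `K₄` colourings lift -/
lemma m1a {a b c d a' : ℤ} (h : K4 k q a b c d) (h' : K4 k q a' b c d) :
    Conn k q (st a b c d) (st a' b c d) := by
  have g1 := h.good
  have g3 := h'.good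
  have g2 : Good k q a' b c a b c d :=
    ⟨h'.ra, h.rb, h.rc, h.ra, h.rb, h.rc, h.rd, h'.ab, h'.ac, h.bc, h.ab, h.ac, h'.ab.symm, h.bc,
    h'.ac.symm, h.bc.symm, h.ad.symm, h.bd.symm, h.cd.symm⟩
  exact (mvx g1 g2).trans (mvA g2 g3)

lemma m1b {a b c d b' : ℤ} (h : K4 k q a b c d) (h' : K4 k q a b' c d) :
    Conn k q (st a b c d) (st a b' c d) := by
  have g1 := h.good
  have g3 := h'.good
  have g2 : Good k q a b' c a b c d :=
    ⟨h.ra, h'.rb, h.rc, h.ra, h.rb, h.rc, h.rd, h'.ab, h.ac, h'.bc, h'.ab, h.ac, h.ab.symm, h.bc,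
    h.ac.symm, h'.bc.symm, h.ad.symm, h.bd.symm, h.cd.symm⟩
  exact (mvy g1 g2).trans (mvB g2 g3)

lemma m1c {a b c d c' : ℤ} (h : K4 k q a b c d) (h' : K4 k q a b c' d) :
    Conn k q (st a b c d) (st a b c' d) := by
  have g1 := h.good
  have g3 := h'.good
  have g2 : Good k q a b c' a b c d :=
    ⟨h.ra, h.rb, h'.rc, h.ra, h.rb, h.rc, h.rd, h.ab, h'.ac, h'.bc, h.ab, h'.ac, h.ab.symm, h'.bc,
    h.ac.symm, h.bc.symm, h.ad.symm, h.bd.symm, h.cd.symm⟩
  exact (mvz g1 g2).trans (mvC g2 g3)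

lemma m1d {a b c d d' : ℤ} (h : K4 k q a b c d) (h' : K4 k q a b c d') :
    Conn k q (st a b c d) (st a b c d') :=
  mvw h.good h'.good

/-- from equal tips to a folded colouring, through `x` -/
lemma tips_x {a b c t w : ℤ} (h : K4 k q a b c t) (rw' : Rg k w) (hw : D k q w t) :
    Conn k q (tup a b c t t t w) (st t b c a) := by
  have g1 : Good k q a b c t t t w :=
    ⟨h.ra, h.rb, h.rc, h.rd, h.rd, h.rd, rw', h.ab, h.ac, h.bc, h.bd.symm, h.cd.symm, h.ad.symm,
      h.cd.symm, h.ad.symm, h.bd.symm, hw, hw, hw⟩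
  have g2 : Good k q a b c t t t a :=
    ⟨h.ra, h.rb, h.rc, h.rd, h.rd, h.rd, h.ra, h.ab, h.ac, h.bc, h.bd.symm, h.cd.symm, h.ad.symm,
      h.cd.symm, h.ad.symm, h.bd.symm, h.ad, h.ad, h.ad⟩
  have g3 : Good k q a b c t b t a :=
    ⟨h.ra, h.rb, h.rc, h.rd, h.rb, h.rd, h.ra, h.ab, h.ac, h.bc, h.bd.symm, h.cd.symm, h.ab.symm,
      h.bc, h.ad.symm, h.bd.symm, h.ad, h.ab, h.ad⟩
  have g4 : Good k q a b c t b c a :=
    ⟨h.ra, h.rb, h.rc, h.rd, h.rb, h.rc, h.ra, h.ab, h.ac, h.bc, h.bd.symm, h.cd.symm, h.ab.symm,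
      h.bc, h.ac.symm, h.bc.symm, h.ad, h.ab, h.ac⟩
  have g5 : Good k q t b c t b c a :=
    ⟨h.rd, h.rb, h.rc, h.rd, h.rb, h.rc, h.ra, h.bd.symm, h.cd.symm, h.bc, h.bd.symm, h.cd.symm,
      h.bd, h.bc, h.cd, h.bc.symm, h.ad, h.ab, h.ac⟩
  exact (mvw g1 g2).trans ((mvB g2 g3).trans ((mvC g3 g4).trans (mvx g4 g5)))

/-- from equal tips to a folded colouring, through `y` -/
lemma tips_y {a b c t w : ℤ} (h : K4 k q a b c t) (rw' : Rg k w) (hw : D k q w t) :
    Conn k q (tup a b c t t t w) (st a t c b) := by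
  have g1 : Good k q a b c t t t w :=
    ⟨h.ra, h.rb, h.rc, h.rd, h.rd, h.rd, rw', h.ab, h.ac, h.bc, h.bd.symm, h.cd.symm, h.ad.symm,
      h.cd.symm, h.ad.symm, h.bd.symm, hw, hw, hw⟩
  have g2 : Good k q a b c t t t b :=
    ⟨h.ra, h.rb, h.rc, h.rd, h.rd, h.rd, h.rb, h.ab, h.ac, h.bc, h.bd.symm, h.cd.symm, h.ad.symm,
      h.cd.symm, h.ad.symm, h.bd.symm, h.bd, h.bd, h.bd⟩
  have g3 : Good k q a b c a t t b :=
    ⟨h.ra, h.rb, h.rc, h.ra, h.rd, h.rd, h.rb, h.ab, h.ac, h.bc, h.ab, h.ac, h.ad.symm,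
      h.cd.symm, h.ad.symm, h.bd.symm, h.ab.symm, h.bd, h.bd⟩
  have g4 : Good k q a b c a t c b :=
    ⟨h.ra, h.rb, h.rc, h.ra, h.rd, h.rc, h.rb, h.ab, h.ac, h.bc, h.ab, h.ac, h.ad.symm,
      h.cd.symm, h.ac.symm, h.bc.symm, h.ab.symm, h.bd, h.bc⟩
  have g5 : Good k q a t c a t c b :=
    ⟨h.ra, h.rd, h.rc, h.ra, h.rd, h.rc, h.rb, h.ad, h.ac, h.cd.symm, h.ad, h.ac, h.ad.symm,
      h.cd.symm, h.ac.symm, h.cd, h.ab.symm, h.bd, h.bc⟩
  exact (mvw g1 g2).trans ((mvA g2 g3).trans ((mvC g3 g4).trans (mvy g4 g5)))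

/-- from equal tips to a folded colouring, through `z` -/
lemma tips_z {a b c t w : ℤ} (h : K4 k q a b c t) (rw' : Rg k w) (hw : D k q w t) :
    Conn k q (tup a b c t t t w) (st a b t c) := by
  have g1 : Good k q a b c t t t w :=
    ⟨h.ra, h.rb, h.rc, h.rd, h.rd, h.rd, rw', h.ab, h.ac, h.bc, h.bd.symm, h.cd.symm, h.ad.symm,
      h.cd.symm, h.ad.symm, h.bd.symm, hw, hw, hw⟩
  have g2 : Good k q a b c t t t c :=
    ⟨h.ra, h.rb, h.rc, h.rd, h.rd, h.rd, h.rc, h.ab, h.ac, h.bc, h.bd.symm, h.cd.symm, h.ad.symm,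
      h.cd.symm, h.ad.symm, h.bd.symm, h.cd, h.cd, h.cd⟩
  have g3 : Good k q a b c a t t c :=
    ⟨h.ra, h.rb, h.rc, h.ra, h.rd, h.rd, h.rc, h.ab, h.ac, h.bc, h.ab, h.ac, h.ad.symm,
      h.cd.symm, h.ad.symm, h.bd.symm, h.ac.symm, h.cd, h.cd⟩
  have g4 : Good k q a b c a b t c :=
    ⟨h.ra, h.rb, h.rc, h.ra, h.rb, h.rd, h.rc, h.ab, h.ac, h.bc, h.ab, h.ac, h.ab.symm,
      h.bc, h.ad.symm, h.bd.symm, h.ac.symm, h.bc.symm, h.cd⟩
  have g5 : Good k q a b t a b t c :=
    ⟨h.ra, h.rb, h.rd, h.ra, h.rb, h.rd, h.rc, h.ab, h.ad, h.bd, h.ab, h.ad, h.ab.symm,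
      h.bd, h.ad.symm, h.bd.symm, h.ac.symm, h.bc.symm, h.cd⟩
  exact (mvw g1 g2).trans ((mvA g2 g3).trans ((mvB g3 g4).trans (mvz g4 g5)))

lemma K4.p1 {a b c d : ℤ} (h : K4 k q a b c d) : K4 k q d b c a :=
  ⟨h.rd, h.rb, h.rc, h.ra, h.bd.symm, h.cd.symm, h.ad.symm, h.bc, h.ab.symm, h.ac.symm⟩

/-- exchange of three values, from `(a,b,c,d)` to `(d,a,c,b)` -/
lemma m2 {a b c d : ℤ} (h : K4 k q a b c d) : Conn k q (st a b c d) (st d a c b) := by
  have h' := h.p1
  -- `(d,b,c)` with tips at `a` and apex anywhere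
  have e1 := (tips_x h' h.rd h.ad.symm).symm
  have e2 := tips_y h' h.rd h.ad.symm
  have : Conn k q (tup d b c a a a d) (st d a c b) := e2
  have h3 : Conn k q (st a b c d) (tup d b c a a a d) := e1
  exact h3.trans this

/-- exchange of three values, from `(a,b,c,d)` to `(d,b,a,c)` -/
lemma m2' {a b c d : ℤ} (h : K4 k q a b c d) : Conn k q (st a b c d) (st d b a c) := by
  have h' := h.p1
  have e1 := (tips_x h' h.rd h.ad.symm).symm
  have e2 := tips_z h' h.rd h.ad.symm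
  exact Conn.trans e1 e2


section symmetry

/-- exchange of the first two triangle vertices and of the opposite tips -/
def p01 : Fin 7 → Fin 7
  | 0 => 1
  | 1 => 0
  | 2 => 2
  | 3 => 4
  | 4 => 3
  | 5 => 5
  | 6 => 6

/-- exchange of the last two triangle vertices and of the opposite tips -/
def p12 : Fin 7 → Fin 7
  | 0 => 0
  | 1 => 2
  | 2 => 1
  | 3 => 3
  | 4 => 5
  | 5 => 4
  | 6 => 6

lemma conn_comp (p : Fin 7 → Fin 7) (hp : ∀ u v, sun.Adj u v → sun.Adj (p u) (p v))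
    (hinv : ∀ u, p (p u) = u) {f g : Fin 7 → ℤ} (h : Conn k q f g) :
    Conn k q (f ∘ p) (g ∘ p) := by
  have hcol : ∀ f, IsCol sun k q f → IsCol sun k q (f ∘ p) := fun f hf =>
    ⟨fun v => hf.1 (p v), fun u v huv => hf.2 _ _ (hp u v huv)⟩
  induction h with
  | refl => exact Relation.ReflTransGen.refl
  | tail _ hs ih =>
    obtain ⟨h1, h2, v, hv⟩ := hs
    refine Relation.ReflTransGen.tail ih ⟨hcol _ h1, hcol _ h2, p v, fun u hu => ?_⟩
    apply hv
    intro h
    apply hu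
    rw [← h, hinv]

lemma tup_p01 (x y z A B C w : ℤ) : tup x y z A B C w ∘ p01 = tup y x z B A C w := by
  funext v
  exact match v with
    | 0 => rfl
    | 1 => rfl
    | 2 => rfl
    | 3 => rfl
    | 4 => rfl
    | 5 => rfl
    | 6 => rfl

lemma tup_p12 (x y z A B C w : ℤ) : tup x y z A B C w ∘ p12 = tup x z y A C B w := by
  funext v
  exact match v with
    | 0 => rfl
    | 1 => rfl
    | 2 => rfl
    | 3 => rfl
    | 4 => rfl
    | 5 => rfl
    | 6 => rfl

lemma conn_p01 {x y z A B C w x' y' z' A' B' C' w' : ℤ}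
    (h : Conn k q (tup x y z A B C w) (tup x' y' z' A' B' C' w')) :
    Conn k q (tup y x z B A C w) (tup y' x' z' B' A' C' w') := by
  have := conn_comp p01 (by decide) (by decide) h
  rwa [tup_p01, tup_p01] at this

lemma conn_p12 {x y z A B C w x' y' z' A' B' C' w' : ℤ}
    (h : Conn k q (tup x y z A B C w) (tup x' y' z' A' B' C' w')) :
    Conn k q (tup x z y A C B w) (tup x' z' y' A' C' B' w') := by
  have := conn_comp p12 (by decide) (by decide) h
  rwa [tup_p12, tup_p12] at this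

lemma Good.s01 {x y z A B C w : ℤ} (h : Good k q x y z A B C w) : Good k q y x z B A C w :=
  ⟨h.ry, h.rx, h.rz, h.rB, h.rA, h.rC, h.rw', h.xy.symm, h.yz, h.xz, h.Bx, h.Bz, h.Ay, h.Az,
    h.Cy, h.Cx, h.wB, h.wA, h.wC⟩

lemma Good.s12 {x y z A B C w : ℤ} (h : Good k q x y z A B C w) : Good k q x z y A C B w :=
  ⟨h.rx, h.rz, h.ry, h.rA, h.rC, h.rB, h.rw', h.xz, h.xy, h.yz.symm, h.Az, h.Ay, h.Cx, h.Cy,
    h.Bx, h.Bz, h.wA, h.wC, h.wB⟩

lemma K4.s01 {a b c d : ℤ} (h : K4 k q a b c d) : K4 k q b a c d :=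
  ⟨h.rb, h.ra, h.rc, h.rd, h.ab.symm, h.bc, h.bd, h.ac, h.ad, h.cd⟩

lemma K4.s12 {a b c d : ℤ} (h : K4 k q a b c d) : K4 k q a c b d :=
  ⟨h.ra, h.rc, h.rb, h.rd, h.ac, h.ab, h.ad, h.bc.symm, h.cd, h.bd⟩

end symmetry

section arithmetic

lemma D_iff {a b : ℤ} : D k q a b ↔
    ((q : ℤ) ≤ a - b ∧ a - b ≤ k - q) ∨ ((q : ℤ) ≤ b - a ∧ b - a ≤ k - q) := by
  unfold D
  have hq : (0 : ℤ) ≤ q := by positivity
  constructor
  · rintro ⟨h1, h2⟩
    rcases abs_cases (a - b) with ⟨h, _⟩ | ⟨h, _⟩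
    · left; omega
    · right; omega
  · rintro (⟨h1, h2⟩ | ⟨h1, h2⟩)
    · rw [abs_of_nonneg (by omega)]; exact ⟨h1, h2⟩
    · rw [abs_sub_comm, abs_of_nonneg (by omega)]; exact ⟨h1, h2⟩

/-- shift of the circle that moves `w` to `0` -/
def sh (k : ℕ) (w a : ℤ) : ℤ := if w ≤ a then a - w else a - w + k

lemma sh_rg {w a : ℤ} (hw : Rg k w) (ha : Rg k a) : Rg k (sh k w a) := by
  unfold Rg sh at *
  split_ifs <;> omega

lemma sh_D {w a b : ℤ} (hw : Rg k w) (ha : Rg k a) (hb : Rg k b) :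
    D k q a b ↔ D k q (sh k w a) (sh k w b) := by
  rw [D_iff, D_iff]
  unfold Rg sh at *
  split_ifs <;> omega

lemma sh_D0 {w a : ℤ} (hq : 0 < q) (hw : Rg k w) (ha : Rg k a) :
    D k q w a ↔ (q : ℤ) ≤ sh k w a ∧ sh k w a ≤ k - q := by
  rw [D_iff]
  unfold Rg sh at *
  split_ifs <;> omega

/-- a value cannot be close to three values that are pairwise far -/
lemma not_all (hq : 0 < q) {x y z w : ℤ} (rx : Rg k x) (ry : Rg k y) (rz : Rg k z) (rw' : Rg k w)
    (xy : D k q x y) (xz : D k q x z) (yz : D k q y z) (wx : ¬ D k q w x) (wy : ¬ D k q w y)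
    (wz : ¬ D k q w z) : False := by
  rw [sh_D rw' rx ry, D_iff] at xy
  rw [sh_D rw' rx rz, D_iff] at xz
  rw [sh_D rw' ry rz, D_iff] at yz
  rw [sh_D0 hq rw' rx] at wx
  rw [sh_D0 hq rw' ry] at wy
  rw [sh_D0 hq rw' rz] at wz
  have r1 := sh_rg rw' rx
  have r2 := sh_rg rw' ry
  have r3 := sh_rg rw' rz
  unfold Rg at r1 r2 r3
  generalize sh k w x = a at *
  generalize sh k w y = b at *
  generalize sh k w z = c at *
  omega

/-- the geometric core of the two-close case -/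
lemma key (hq : 0 < q) {x y z A B w : ℤ} (rx : Rg k x) (ry : Rg k y) (rz : Rg k z) (rA : Rg k A)
    (rB : Rg k B) (rw' : Rg k w) (xy : D k q x y) (xz : D k q x z) (yz : D k q y z)
    (Az : D k q A z) (Bz : D k q B z) (wz : D k q w z) (wA : D k q w A)
    (wB : D k q w B) (Ay : D k q A y) (Bx : D k q B x)
    (wx : ¬ D k q w x) (wy : ¬ D k q w y) (Ax : ¬ D k q A x) (By : ¬ D k q B y) :
    D k q A B := by
  rw [sh_D rw' rx ry, D_iff] at xy
  rw [sh_D rw' rx rz, D_iff] at xz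
  rw [sh_D rw' ry rz, D_iff] at yz
  rw [sh_D rw' rA rz, D_iff] at Az
  rw [sh_D rw' rB rz, D_iff] at Bz
  rw [sh_D rw' rA ry, D_iff] at Ay
  rw [sh_D rw' rB rx, D_iff] at Bx
  rw [sh_D rw' rA rx, D_iff] at Ax
  rw [sh_D rw' rB ry, D_iff] at By
  rw [sh_D0 hq rw' rx] at wx
  rw [sh_D0 hq rw' ry] at wy
  rw [sh_D0 hq rw' rz] at wz
  rw [sh_D0 hq rw' rA] at wA
  rw [sh_D0 hq rw' rB] at wB
  rw [sh_D rw' rA rB, D_iff]
  have r1 := sh_rg rw' rx
  have r2 := sh_rg rw' ry
  unfold Rg at r1 r2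
  generalize sh k w x = a at *
  generalize sh k w y = b at *
  generalize sh k w z = c at *
  generalize sh k w A = d at *
  generalize sh k w B = e at *
  rcases xy with xy | xy
  · have h1 : b < q := by omega
    have h2 : (k : ℤ) - q < a := by omega
    have h3 : c + q ≤ a := by omega
    have h4 : b + q ≤ c := by omega
    omega
  · have h1 : a < q := by omega
    have h2 : (k : ℤ) - q < b := by omega
    have h3 : c + q ≤ b := by omega
    have h4 : a + q ≤ c := by omega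
    omega

end arithmetic

section folding

variable {x y z A B C w : ℤ}

/-- the apex is far from the whole triangle -/
lemma fold0 (h : Good k q x y z A B C w) (wx : D k q w x) (wy : D k q w y) (wz : D k q w z) :
    ∃ a b c d, K4 k q a b c d ∧ Conn k q (tup x y z A B C w) (st a b c d) := by
  have g1 : Good k q x y z x B C w := { h with rA := h.rx, Ay := h.xy, Az := h.xz, wA := wx }
  have g2 : Good k q x y z x y C w :=
    { g1 with rB := h.ry, Bx := h.xy.symm, Bz := h.yz, wB := wy }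
  have g3 : Good k q x y z x y z w :=
    { g2 with rC := h.rz, Cx := h.xz.symm, Cy := h.yz.symm, wC := wz }
  exact ⟨x, y, z, w, ⟨h.rx, h.ry, h.rz, h.rw', h.xy, h.xz, wx.symm, h.yz, wy.symm, wz.symm⟩,
    (mvA h g1).trans ((mvB g1 g2).trans (mvC g2 g3))⟩

/-- the apex may be close to `x` only -/
lemma fold1x (h : Good k q x y z A B C w) (wy : D k q w y) (wz : D k q w z) :
    ∃ a b c d, K4 k q a b c d ∧ Conn k q (tup x y z A B C w) (st a b c d) := by
  have g2 : Good k q x y z A y C w :=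
    { h with rB := h.ry, Bx := h.xy.symm, Bz := h.yz, wB := wy }
  have g3 : Good k q x y z A y z w :=
    { g2 with rC := h.rz, Cx := h.xz.symm, Cy := h.yz.symm, wC := wz }
  have g4 : Good k q A y z A y z w :=
    { g3 with rx := h.rA, xy := h.Ay, xz := h.Az, Bx := h.Ay.symm, Cx := h.Az.symm }
  exact ⟨A, y, z, w, ⟨h.rA, h.ry, h.rz, h.rw', h.Ay, h.Az, h.wA.symm, h.yz, wy.symm, wz.symm⟩,
    (mvB h g2).trans ((mvC g2 g3).trans (mvx g3 g4))⟩

lemma fold1y (h : Good k q x y z A B C w) (wx : D k q w x) (wz : D k q w z) :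
    ∃ a b c d, K4 k q a b c d ∧ Conn k q (tup x y z A B C w) (st a b c d) := by
  obtain ⟨a, b, c, d, h1, h2⟩ := fold1x h.s01 wx wz
  exact ⟨b, a, c, d, h1.s01, conn_p01 h2⟩

lemma fold1z (h : Good k q x y z A B C w) (wx : D k q w x) (wy : D k q w y) :
    ∃ a b c d, K4 k q a b c d ∧ Conn k q (tup x y z A B C w) (st a b c d) := by
  obtain ⟨a, b, c, d, h1, h2⟩ := fold1y h.s12 wx wy
  exact ⟨a, c, b, d, h1.s12, conn_p12 h2⟩

/-- the apex is close to `x` and `y` -/
lemma fold2xy (hq : 0 < q) (h : Good k q x y z A B C w) (wx : ¬ D k q w x) (wy : ¬ D k q w y)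
    (wz : D k q w z) :
    ∃ a b c d, K4 k q a b c d ∧ Conn k q (tup x y z A B C w) (st a b c d) := by
  have g1 : Good k q x y z A B z w :=
    { h with rC := h.rz, Cx := h.xz.symm, Cy := h.yz.symm, wC := wz }
  by_cases hAB : D k q A B
  · have g2 : Good k q A y z A B z w :=
      { g1 with rx := h.rA, xy := h.Ay, xz := h.Az, Bx := hAB.symm, Cx := h.Az.symm }
    obtain ⟨a, b, c, d, h1, h2⟩ := fold1y g2 h.wA wz
    exact ⟨a, b, c, d, h1, (mvC h g1).trans ((mvx g1 g2).trans h2)⟩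
  by_cases hAx : D k q A x
  · have g2 : Good k q x y z A A C w :=
      { h with rB := h.rA, Bx := hAx, Bz := h.Az, wB := h.wA }
    have g3 : Good k q x y z A A A w :=
      { g2 with rC := h.rA, Cx := hAx, Cy := h.Ay, wC := h.wA }
    have hK : K4 k q x y z A :=
      ⟨h.rx, h.ry, h.rz, h.rA, h.xy, h.xz, hAx.symm, h.yz, h.Ay.symm, h.Az.symm⟩
    exact ⟨A, y, z, x, hK.p1, (mvB h g2).trans ((mvC g2 g3).trans (tips_x hK h.rw' h.wA))⟩
  by_cases hBy : D k q B y
  · have g2 : Good k q x y z B B C w :=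
      { h with rA := h.rB, Ay := hBy, Az := h.Bz, wA := h.wB }
    have g3 : Good k q x y z B B B w :=
      { g2 with rC := h.rB, Cx := h.Bx, Cy := hBy, wC := h.wB }
    have hK : K4 k q x y z B :=
      ⟨h.rx, h.ry, h.rz, h.rB, h.xy, h.xz, h.Bx.symm, h.yz, hBy.symm, h.Bz.symm⟩
    exact ⟨B, y, z, x, hK.p1, (mvA h g2).trans ((mvC g2 g3).trans (tips_x hK h.rw' h.wB))⟩
  exact absurd (key hq h.rx h.ry h.rz h.rA h.rB h.rw' h.xy h.xz h.yz h.Az h.Bz wz h.wA h.wB h.Ay
    h.Bx wx wy hAx hBy) hAB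

lemma fold2xz (hq : 0 < q) (h : Good k q x y z A B C w) (wx : ¬ D k q w x) (wz : ¬ D k q w z)
    (wy : D k q w y) :
    ∃ a b c d, K4 k q a b c d ∧ Conn k q (tup x y z A B C w) (st a b c d) := by
  obtain ⟨a, b, c, d, h1, h2⟩ := fold2xy hq h.s12 wx wz wy
  exact ⟨a, c, b, d, h1.s12, conn_p12 h2⟩

lemma fold2yz (hq : 0 < q) (h : Good k q x y z A B C w) (wy : ¬ D k q w y) (wz : ¬ D k q w z)
    (wx : D k q w x) :
    ∃ a b c d, K4 k q a b c d ∧ Conn k q (tup x y z A B C w) (st a b c d) := by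
  obtain ⟨a, b, c, d, h1, h2⟩ := fold2xz hq h.s01 wy wz wx
  exact ⟨b, a, c, d, h1.s01, conn_p01 h2⟩

/-- every colouring is connected to a folded one -/
lemma fold (hq : 0 < q) (h : Good k q x y z A B C w) :
    ∃ a b c d, K4 k q a b c d ∧ Conn k q (tup x y z A B C w) (st a b c d) := by
  by_cases wx : D k q w x
  · by_cases wy : D k q w y
    · exact fold1z h wx wy
    · by_cases wz : D k q w z
      · exact fold1y h wx wz
      · exact fold2yz hq h wy wz wx
  · by_cases wy : D k q w y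
    · by_cases wz : D k q w z
      · exact fold1x h wy wz
      · exact fold2xz hq h wx wz wy
    · by_cases wz : D k q w z
      · exact fold2xy hq h wx wy wz
      · exact (not_all hq h.rx h.ry h.rz h.rw' h.xy h.xz h.yz wx wy wz).elim

end folding

section kfour

/-- colourings of `K₄` -/
def K4f (k q : ℕ) (h : Fin 4 → ℤ) : Prop :=
  (∀ i, Rg k (h i)) ∧ ∀ i j, i ≠ j → D k q (h i) (h j)

/-- the folded colouring -/
def stf (h : Fin 4 → ℤ) : Fin 7 → ℤ := st (h 0) (h 1) (h 2) (h 3)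

lemma K4f.k4 {h : Fin 4 → ℤ} (hh : K4f k q h) : K4 k q (h 0) (h 1) (h 2) (h 3) :=
  ⟨hh.1 0, hh.1 1, hh.1 2, hh.1 3, hh.2 0 1 (by decide), hh.2 0 2 (by decide),
    hh.2 0 3 (by decide), hh.2 1 2 (by decide), hh.2 1 3 (by decide), hh.2 2 3 (by decide)⟩

lemma move4 {h h' : Fin 4 → ℤ} (hh : K4f k q h) (hh' : K4f k q h') (i : Fin 4)
    (hi : ∀ j, j ≠ i → h' j = h j) : Conn k q (stf h) (stf h') := by
  have e := hh'.k4
  unfold stf
  match i, hi with
  | 0, hi =>
    rw [hi 1 (by decide), hi 2 (by decide), hi 3 (by decide)] at e ⊢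
    exact m1a hh.k4 e
  | 1, hi =>
    rw [hi 0 (by decide), hi 2 (by decide), hi 3 (by decide)] at e ⊢
    exact m1b hh.k4 e
  | 2, hi =>
    rw [hi 0 (by decide), hi 1 (by decide), hi 3 (by decide)] at e ⊢
    exact m1c hh.k4 e
  | 3, hi =>
    rw [hi 0 (by decide), hi 1 (by decide), hi 2 (by decide)] at e ⊢
    exact m1d hh.k4 e

/-- four increasing values -/
def qd (a b c d : ℤ) : Fin 4 → ℤ
  | 0 => a
  | 1 => b
  | 2 => c
  | 3 => d

/-- admissible increasing values -/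
def Srt (k q : ℕ) (a b c d : ℤ) : Prop :=
  0 ≤ a ∧ a + q ≤ b ∧ b + q ≤ c ∧ c + q ≤ d ∧ d ≤ a + k - q ∧ d < k

lemma Srt.k4f {a b c d : ℤ} (h : Srt k q a b c d) (σ : Equiv.Perm (Fin 4)) :
    K4f k q (qd a b c d ∘ σ) := by
  obtain ⟨h1, h2, h3, h4, h5, h6⟩ := h
  have hq : (0 : ℤ) ≤ q := by positivity
  have ra : Rg k a := ⟨by omega, by omega⟩
  have rb : Rg k b := ⟨by omega, by omega⟩
  have rc : Rg k c := ⟨by omega, by omega⟩
  have rd : Rg k d := ⟨by omega, by omega⟩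
  have dab : D k q a b := D_iff.2 (Or.inr ⟨by omega, by omega⟩)
  have dac : D k q a c := D_iff.2 (Or.inr ⟨by omega, by omega⟩)
  have dad : D k q a d := D_iff.2 (Or.inr ⟨by omega, by omega⟩)
  have dbc : D k q b c := D_iff.2 (Or.inr ⟨by omega, by omega⟩)
  have dbd : D k q b d := D_iff.2 (Or.inr ⟨by omega, by omega⟩)
  have dcd : D k q c d := D_iff.2 (Or.inr ⟨by omega, by omega⟩)
  have hr : ∀ i, Rg k (qd a b c d i) := fun i =>
    match i with
    | 0 => ra
    | 1 => rb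
    | 2 => rc
    | 3 => rd
  have hd : ∀ i j, i < j → D k q (qd a b c d i) (qd a b c d j) := fun i j =>
    match i, j with
    | 0, 1 => fun _ => dab
    | 0, 2 => fun _ => dac
    | 0, 3 => fun _ => dad
    | 1, 2 => fun _ => dbc
    | 1, 3 => fun _ => dbd
    | 2, 3 => fun _ => dcd
    | 0, 0 => fun h => absurd h (by decide)
    | 1, 0 => fun h => absurd h (by decide)
    | 1, 1 => fun h => absurd h (by decide)
    | 2, 0 => fun h => absurd h (by decide)
    | 2, 1 => fun h => absurd h (by decide)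
    | 2, 2 => fun h => absurd h (by decide)
    | 3, 0 => fun h => absurd h (by decide)
    | 3, 1 => fun h => absurd h (by decide)
    | 3, 2 => fun h => absurd h (by decide)
    | 3, 3 => fun h => absurd h (by decide)
  refine ⟨fun i => hr _, fun i j hij => ?_⟩
  have hne : σ i ≠ σ j := fun h => hij (σ.injective h)
  rcases lt_or_gt_of_ne hne with h | h
  · exact hd _ _ h
  · exact (hd _ _ h).symm

lemma ms {a b c d a' b' c' d' : ℤ} (σ : Equiv.Perm (Fin 4)) (h : Srt k q a b c d)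
    (h' : Srt k q a' b' c' d') (i : Fin 4)
    (hi : ∀ j, j ≠ i → qd a' b' c' d' j = qd a b c d j) :
    Conn k q (stf (qd a b c d ∘ σ)) (stf (qd a' b' c' d' ∘ σ)) := by
  apply move4 (h.k4f σ) (h'.k4f σ) (σ.symm i)
  intro j hj
  apply hi
  intro h
  apply hj
  rw [← h, Equiv.symm_apply_apply]

/-- compression of a sorted colouring -/
lemma compress (hk : 4 * q < k) (σ : Equiv.Perm (Fin 4)) : ∀ (n : ℕ) (b c d : ℤ),
    Srt k q n b c d →
      Conn k q (stf (qd n b c d ∘ σ)) (stf (qd 0 q (2 * q) (3 * q) ∘ σ)) := by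
  have hk' : 4 * (q : ℤ) + 1 ≤ k := by exact_mod_cast hk
  have hq : (0 : ℤ) ≤ q := by positivity
  -- first make everything tight above the lowest value
  have tight : ∀ (a b c d : ℤ), Srt k q a b c d →
      Conn k q (stf (qd a b c d ∘ σ)) (stf (qd a (a + q) (a + 2 * q) (a + 3 * q) ∘ σ)) := by
    intro a b c d h
    obtain ⟨h1, h2, h3, h4, h5, h6⟩ := h
    have s1 : Srt k q a b c d := ⟨h1, h2, h3, h4, h5, h6⟩
    have s2 : Srt k q a (a + q) c d := ⟨h1, by omega, by omega, h4, h5, h6⟩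
    have s3 : Srt k q a (a + q) (a + 2 * q) d := ⟨h1, by omega, by omega, by omega, h5, h6⟩
    have s4 : Srt k q a (a + q) (a + 2 * q) (a + 3 * q) :=
      ⟨h1, by omega, by omega, by omega, by omega, by omega⟩
    have e1 := ms σ s1 s2 1 (fun j hj => match j, hj with
      | 0, _ => rfl
      | 1, hj => absurd rfl hj
      | 2, _ => rfl
      | 3, _ => rfl)
    have e2 := ms σ s2 s3 2 (fun j hj => match j, hj with
      | 0, _ => rfl
      | 1, _ => rfl
      | 2, hj => absurd rfl hj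
      | 3, _ => rfl)
    have e3 := ms σ s3 s4 3 (fun j hj => match j, hj with
      | 0, _ => rfl
      | 1, _ => rfl
      | 2, _ => rfl
      | 3, hj => absurd rfl hj)
    exact e1.trans (e2.trans e3)
  intro n
  induction n with
  | zero =>
    intro b c d h
    have := tight _ b c d h
    simpa using this
  | succ n ih =>
    intro b c d h
    have e1 := tight _ b c d h
    obtain ⟨h1, h2, h3, h4, h5, h6⟩ := h
    push_cast at *
    have s1 : Srt k q ((n : ℤ) + 1) ((n : ℤ) + 1 + q) ((n : ℤ) + 1 + 2 * q)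
        ((n : ℤ) + 1 + 3 * q) := ⟨by omega, by omega, by omega, by omega, by omega, by omega⟩
    have s2 : Srt k q (n : ℤ) ((n : ℤ) + 1 + q) ((n : ℤ) + 1 + 2 * q)
        ((n : ℤ) + 1 + 3 * q) := ⟨by omega, by omega, by omega, by omega, by omega, by omega⟩
    have e2 := ms σ s1 s2 0 (fun j hj => match j, hj with
      | 0, hj => absurd rfl hj
      | 1, _ => rfl
      | 2, _ => rfl
      | 3, _ => rfl)
    exact e1.trans (e2.trans (ih _ _ _ s2))

/-- the base colouring -/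
def row (q : ℕ) : Fin 4 → ℤ := qd 0 q (2 * q) (3 * q)

lemma to_perm (hq : 0 < q) (hk : 4 * q < k) {h : Fin 4 → ℤ} (hh : K4f k q h) :
    ∃ σ : Equiv.Perm (Fin 4), Conn k q (stf h) (stf (row q ∘ σ)) := by
  let τ := Tuple.sort h
  have hmono := Tuple.monotone_sort h
  let p : Fin 4 → ℤ := h ∘ τ
  have hgap : ∀ i j : Fin 4, i < j → (q : ℤ) ≤ p j - p i ∧ p j - p i ≤ k - q := by
    intro i j hij
    have h1 : p i ≤ p j := hmono hij.le
    have h2 := hh.2 (τ i) (τ j) (fun h => hij.ne (τ.injective h))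
    rw [D_iff] at h2
    have hq' : (0 : ℤ) < q := by exact_mod_cast hq
    simp only [p, Function.comp] at h1 ⊢
    omega
  have h01 := hgap 0 1 (by decide)
  have h12 := hgap 1 2 (by decide)
  have h23 := hgap 2 3 (by decide)
  have h03 := hgap 0 3 (by decide)
  have r0 := hh.1 (τ 0)
  have r3 := hh.1 (τ 3)
  have hp0 : 0 ≤ p 0 := r0.1
  have hp3 : p 3 < k := r3.2
  have hcast : ((p 0).toNat : ℤ) = p 0 := Int.toNat_of_nonneg hp0
  have hs : Srt k q ((p 0).toNat : ℤ) (p 1) (p 2) (p 3) := by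
    rw [hcast]
    exact ⟨hp0, by omega, by omega, by omega, by omega, hp3⟩
  have hc := compress hk τ.symm (p 0).toNat (p 1) (p 2) (p 3) hs
  refine ⟨τ.symm, ?_⟩
  have heq : qd ((p 0).toNat : ℤ) (p 1) (p 2) (p 3) ∘ τ.symm = h := by
    rw [hcast]
    have hqd : qd (p 0) (p 1) (p 2) (p 3) = p := by
      funext i
      exact match i with
      | 0 => rfl
      | 1 => rfl
      | 2 => rfl
      | 3 => rfl
    rw [hqd]
    funext i
    simp [p]
  rw [heq] at hc
  exact hc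

/-- four indices -/
def qn (a b c d : Fin 4) : Fin 4 → Fin 4
  | 0 => a
  | 1 => b
  | 2 => c
  | 3 => d

/-- first three-cycle -/
def g1 : Equiv.Perm (Fin 4) := ⟨qn 3 0 2 1, qn 1 3 2 0, by decide, by decide⟩

/-- second three-cycle -/
def g2 : Equiv.Perm (Fin 4) := ⟨qn 3 1 0 2, qn 2 1 3 0, by decide, by decide⟩

/-- the four-cycle -/
def rho : Equiv.Perm (Fin 4) := ⟨qn 1 2 3 0, qn 3 0 1 2, by decide, by decide⟩

lemma K4f.comp {h : Fin 4 → ℤ} (hh : K4f k q h) (σ : Equiv.Perm (Fin 4)) : K4f k q (h ∘ σ) :=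
  ⟨fun i => hh.1 _, fun i j hij => hh.2 _ _ (fun h => hij (σ.injective h))⟩

/-- permutations realised on all folded colourings -/
def Real' (k q : ℕ) (σ : Equiv.Perm (Fin 4)) : Prop :=
  ∀ h : Fin 4 → ℤ, K4f k q h → Conn k q (stf h) (stf (h ∘ σ))

lemma real_mul {σ τ : Equiv.Perm (Fin 4)} (hσ : Real' k q σ) (hτ : Real' k q τ) :
    Real' k q (σ * τ) := by
  intro h hh
  have h1 := hσ h hh
  have h2 := hτ (h ∘ σ) (hh.comp σ)
  exact h1.trans h2

lemma real_one : Real' k q 1 := fun _ _ => Relation.ReflTransGen.refl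

lemma real_pow {σ : Equiv.Perm (Fin 4)} (hσ : Real' k q σ) (n : ℕ) : Real' k q (σ ^ n) := by
  induction n with
  | zero => rw [pow_zero]; exact real_one
  | succ n ih => rw [pow_succ]; exact real_mul ih hσ

lemma real_g1 : Real' k q g1 := fun _ hh => m2 hh.k4

lemma real_g2 : Real' k q g2 := fun _ hh => m2' hh.k4

lemma real_even {σ : Equiv.Perm (Fin 4)} (hσ : Equiv.Perm.sign σ = 1) : Real' k q σ := by
  have h : ∀ σ : Equiv.Perm (Fin 4), Equiv.Perm.sign σ = 1 →
      ∃ a b c : Fin 3, σ = g1 ^ (a : ℕ) * g2 ^ (b : ℕ) * g1 ^ (c : ℕ) := by decide +kernel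
  obtain ⟨a, b, c, rfl⟩ := h σ hσ
  exact real_mul (real_mul (real_pow real_g1 _) (real_pow real_g2 _)) (real_pow real_g1 _)

lemma k4f_row (hk : 4 * q < k) : K4f k q (row q) := by
  have hk' : 4 * (q : ℤ) + 1 ≤ k := by exact_mod_cast hk
  have hq : (0 : ℤ) ≤ q := by positivity
  have : Srt k q 0 q (2 * q) (3 * q) :=
    ⟨le_rfl, by omega, by omega, by omega, by omega, by omega⟩
  have h := this.k4f 1
  exact h

lemma rotate (hk : 4 * q < k) : Conn k q (stf (row q ∘ rho)) (stf (row q)) := by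
  have hk' : 4 * (q : ℤ) + 1 ≤ k := by exact_mod_cast hk
  have hq : (0 : ℤ) ≤ q := by positivity
  have hs : Srt k q (q : ℕ) (2 * q) (3 * q) (k - 1) :=
    ⟨by omega, by omega, by omega, by omega, by omega, by omega⟩
  have h1 := compress hk 1 q (2 * q) (3 * q) (k - 1) hs
  have hK := hs.k4f 1
  have h2 : Conn k q (stf (row q ∘ rho)) (stf (qd q (2 * q) (3 * q) (k - 1))) := by
    apply move4 ((k4f_row hk).comp rho) hK 3
    exact fun j hj => match j, hj with
      | 0, _ => rfl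
      | 1, _ => rfl
      | 2, _ => rfl
      | 3, hj => absurd rfl hj
  exact h2.trans h1

lemma perm_row (hk : 4 * q < k) (σ : Equiv.Perm (Fin 4)) :
    Conn k q (stf (row q ∘ σ)) (stf (row q)) := by
  rcases Int.units_eq_one_or (Equiv.Perm.sign σ) with h | h
  · exact (real_even h (row q) (k4f_row hk)).symm
  · have hr : Equiv.Perm.sign rho = -1 := by decide +kernel
    have h1 : Equiv.Perm.sign (rho⁻¹ * σ) = 1 := by
      rw [map_mul, map_inv, hr, h]; rfl
    have h2 := real_even h1 (row q ∘ rho) ((k4f_row hk).comp rho)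
    have h3 : (row q ∘ rho) ∘ (rho⁻¹ * σ : Equiv.Perm (Fin 4)) = row q ∘ σ := by
      funext i
      simp
    rw [h3] at h2
    exact h2.symm.trans (rotate hk)

end kfour

/-- **the sun graph is `(k,q)`-mixing whenever `k / q > 4`** -/
theorem mixing_sun (hq : 0 < q) (hk : 4 * q < k) : Mixing sun k q := by
  have base : ∀ f, IsCol sun k q f → Conn k q f (stf (row q)) := by
    intro f hf
    have hg := good_of_isCol hf
    obtain ⟨a, b, c, d, h1, h2⟩ := fold hq hg
    rw [tup_eta] at h2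
    have hK : K4f k q (qd a b c d) := by
      refine ⟨fun i => match i with
        | 0 => h1.ra
        | 1 => h1.rb
        | 2 => h1.rc
        | 3 => h1.rd, fun i j => match i, j with
        | 0, 1 => fun _ => h1.ab
        | 0, 2 => fun _ => h1.ac
        | 0, 3 => fun _ => h1.ad
        | 1, 2 => fun _ => h1.bc
        | 1, 3 => fun _ => h1.bd
        | 2, 3 => fun _ => h1.cd
        | 1, 0 => fun _ => h1.ab.symm
        | 2, 0 => fun _ => h1.ac.symm
        | 3, 0 => fun _ => h1.ad.symm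
        | 2, 1 => fun _ => h1.bc.symm
        | 3, 1 => fun _ => h1.bd.symm
        | 3, 2 => fun _ => h1.cd.symm
        | 0, 0 => fun h => absurd rfl h
        | 1, 1 => fun h => absurd rfl h
        | 2, 2 => fun h => absurd rfl h
        | 3, 3 => fun h => absurd rfl h⟩
    obtain ⟨σ, hσ⟩ := to_perm hq hk hK
    have h3 : stf (qd a b c d) = st a b c d := rfl
    rw [h3] at hσ
    exact h2.trans (hσ.trans (perm_row hk σ))
  intro f g hf hg
  exact (base f hf).trans (base g hg).symm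


section frozen

/-- parity of the number of inversions of `(x,y,z,d)` with `d` the fourth colour, changed when the
apex has the fourth colour -/
def par (x y z w : Fin 4) : Bool :=
  let d : Fin 4 := 2 - x - y - z
  xor (xor (xor (decide (y < x)) (decide (z < x))) (xor (decide (d < x)) (decide (z < y))))
    (xor (xor (decide (d < y)) (decide (d < z))) (decide (w = d)))

/-- the values on the triangle and on some tips and the apex are admissible -/
def okT (x y z : Fin 4) : Bool := x != y && x != z && y != z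

lemma par_w' : ∀ x y z A B C w w' : Fin 4, okT x y z → (A != y && A != z) → (B != x && B != z) →
    (C != x && C != y) → (w != A && w != B && w != C) → (w' != A && w' != B && w' != C) →
    par x y z w = par x y z w' := by
  decide +kernel

lemma par_w : ∀ x y : Fin 4, x ≠ y → ∀ z, x ≠ z → y ≠ z → ∀ A, A ≠ y → A ≠ z →
    ∀ B, B ≠ x → B ≠ z → ∀ C, C ≠ x → C ≠ y → ∀ w, w ≠ A → w ≠ B → w ≠ C →
      ∀ w', w' ≠ A → w' ≠ B → w' ≠ C → par x y z w = par x y z w' := by
  intro x y h1 z h2 h3 A h4 h5 B h6 h7 C h8 h9 w h10 h11 h12 w' h13 h14 h15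
  apply par_w' x y z A B C w w' <;> simp [okT, *]

lemma par_x' : ∀ x y z B C w x' : Fin 4, okT x y z → okT x' y z → (x != x') →
    (B != x && B != z && B != x') → (C != x && C != y && C != x') → (w != B && w != C) →
    par x y z w = par x' y z w := by
  decide +kernel

lemma par_x : ∀ x y : Fin 4, x ≠ y → ∀ z, x ≠ z → y ≠ z →
    ∀ B, B ≠ x → B ≠ z → ∀ C, C ≠ x → C ≠ y → ∀ w, w ≠ B → w ≠ C →
      ∀ x', x' ≠ x → x' ≠ y → x' ≠ z → B ≠ x' → C ≠ x' → par x y z w = par x' y z w := by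
  intro x y h1 z h2 h3 B h4 h5 C h6 h7 w h8 h9 x' h10 h11 h12 h13 h14
  apply par_x' x y z B C w x' <;> simp [okT, *, h10.symm]

lemma par_y' : ∀ x y z A C w y' : Fin 4, okT x y z → okT x y' z → (y != y') →
    (A != y && A != z && A != y') → (C != x && C != y && C != y') → (w != A && w != C) →
    par x y z w = par x y' z w := by
  decide +kernel

lemma par_y : ∀ x y : Fin 4, x ≠ y → ∀ z, x ≠ z → y ≠ z → ∀ A, A ≠ y → A ≠ z →
    ∀ C, C ≠ x → C ≠ y → ∀ w, w ≠ A → w ≠ C →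
      ∀ y', y' ≠ y → x ≠ y' → y' ≠ z → A ≠ y' → C ≠ y' → par x y z w = par x y' z w := by
  intro x y h1 z h2 h3 A h4 h5 C h6 h7 w h8 h9 y' h10 h11 h12 h13 h14
  apply par_y' x y z A C w y' <;> simp [okT, *, h10.symm]

lemma par_z' : ∀ x y z A B w z' : Fin 4, okT x y z → okT x y z' → (z != z') →
    (A != y && A != z && A != z') → (B != x && B != z && B != z') → (w != A && w != B) →
    par x y z w = par x y z' w := by
  decide +kernel

lemma par_z : ∀ x y : Fin 4, x ≠ y → ∀ z, x ≠ z → y ≠ z → ∀ A, A ≠ y → A ≠ z →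
    ∀ B, B ≠ x → B ≠ z → ∀ w, w ≠ A → w ≠ B →
      ∀ z', z' ≠ z → x ≠ z' → y ≠ z' → A ≠ z' → B ≠ z' → par x y z w = par x y z' w := by
  intro x y h1 z h2 h3 A h4 h5 B h6 h7 w h8 h9 z' h10 h11 h12 h13 h14
  apply par_z' x y z A B w z' <;> simp [okT, *, h10.symm]

/-- reduction of a value to `Fin 4` -/
def fin4 (a : ℤ) : Fin 4 := ⟨a.toNat % 4, Nat.mod_lt _ (by norm_num)⟩

lemma fin4_ne {a b : ℤ} (ha : Rg 4 a) (hb : Rg 4 b) (h : D 4 1 a b) : fin4 a ≠ fin4 b := by
  rw [D_iff] at h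
  unfold Rg at ha hb
  unfold fin4
  intro he
  rw [Fin.mk.injEq] at he
  push_cast at h ha hb
  omega

/-- the invariant of a `(4,1)`-colouring -/
def inv (f : Fin 7 → ℤ) : Bool := par (fin4 (f 0)) (fin4 (f 1)) (fin4 (f 2)) (fin4 (f 6))

lemma inv_move {f g : Fin 7 → ℤ} (h : Move sun 4 1 f g) : inv f = inv g := by
  obtain ⟨hf, hg, v, hv⟩ := h
  have F := good_of_isCol hf
  have G := good_of_isCol hg
  unfold inv
  match v, hv with
  | 0, hv =>
    have e1 := hv 1 (by decide)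
    have e2 := hv 2 (by decide)
    have e4 := hv 4 (by decide)
    have e5 := hv 5 (by decide)
    have e6 := hv 6 (by decide)
    rw [e1, e2, e6]
    rcases eq_or_ne (fin4 (g 0)) (fin4 (f 0)) with h0 | h0
    · rw [h0]
    · have b1 := fin4_ne G.rx G.ry G.xy
      have b2 := fin4_ne G.rx G.rz G.xz
      have b3 := fin4_ne G.rB G.rx G.Bx
      have b4 := fin4_ne G.rC G.rx G.Cx
      rw [e1] at b1
      rw [e2] at b2
      rw [e4] at b3
      rw [e5] at b4
      exact par_x _ _ (fin4_ne F.rx F.ry F.xy) _ (fin4_ne F.rx F.rz F.xz)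
        (fin4_ne F.ry F.rz F.yz) _ (fin4_ne F.rB F.rx F.Bx) (fin4_ne F.rB F.rz F.Bz) _
        (fin4_ne F.rC F.rx F.Cx) (fin4_ne F.rC F.ry F.Cy) _ (fin4_ne F.rw' F.rB F.wB)
        (fin4_ne F.rw' F.rC F.wC) _ h0 b1 b2 b3 b4
  | 1, hv =>
    have e0 := hv 0 (by decide)
    have e2 := hv 2 (by decide)
    have e3 := hv 3 (by decide)
    have e5 := hv 5 (by decide)
    have e6 := hv 6 (by decide)
    rw [e0, e2, e6]
    rcases eq_or_ne (fin4 (g 1)) (fin4 (f 1)) with h0 | h0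
    · rw [h0]
    · have b1 := fin4_ne G.rx G.ry G.xy
      have b2 := fin4_ne G.ry G.rz G.yz
      have b3 := fin4_ne G.rA G.ry G.Ay
      have b4 := fin4_ne G.rC G.ry G.Cy
      rw [e0] at b1
      rw [e2] at b2
      rw [e3] at b3
      rw [e5] at b4
      exact par_y _ _ (fin4_ne F.rx F.ry F.xy) _ (fin4_ne F.rx F.rz F.xz)
        (fin4_ne F.ry F.rz F.yz) _ (fin4_ne F.rA F.ry F.Ay) (fin4_ne F.rA F.rz F.Az) _
        (fin4_ne F.rC F.rx F.Cx) (fin4_ne F.rC F.ry F.Cy) _ (fin4_ne F.rw' F.rA F.wA)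
        (fin4_ne F.rw' F.rC F.wC) _ h0 b1 b2 b3 b4
  | 2, hv =>
    have e0 := hv 0 (by decide)
    have e1 := hv 1 (by decide)
    have e3 := hv 3 (by decide)
    have e4 := hv 4 (by decide)
    have e6 := hv 6 (by decide)
    rw [e0, e1, e6]
    rcases eq_or_ne (fin4 (g 2)) (fin4 (f 2)) with h0 | h0
    · rw [h0]
    · have b1 := fin4_ne G.rx G.rz G.xz
      have b2 := fin4_ne G.ry G.rz G.yz
      have b3 := fin4_ne G.rA G.rz G.Az
      have b4 := fin4_ne G.rB G.rz G.Bz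
      rw [e0] at b1
      rw [e1] at b2
      rw [e3] at b3
      rw [e4] at b4
      exact par_z _ _ (fin4_ne F.rx F.ry F.xy) _ (fin4_ne F.rx F.rz F.xz)
        (fin4_ne F.ry F.rz F.yz) _ (fin4_ne F.rA F.ry F.Ay) (fin4_ne F.rA F.rz F.Az) _
        (fin4_ne F.rB F.rx F.Bx) (fin4_ne F.rB F.rz F.Bz) _ (fin4_ne F.rw' F.rA F.wA)
        (fin4_ne F.rw' F.rB F.wB) _ h0 b1 b2 b3 b4
  | 3, hv => rw [hv 0 (by decide), hv 1 (by decide), hv 2 (by decide), hv 6 (by decide)]
  | 4, hv => rw [hv 0 (by decide), hv 1 (by decide), hv 2 (by decide), hv 6 (by decide)]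
  | 5, hv => rw [hv 0 (by decide), hv 1 (by decide), hv 2 (by decide), hv 6 (by decide)]
  | 6, hv =>
    have e0 := hv 0 (by decide)
    have e1 := hv 1 (by decide)
    have e2 := hv 2 (by decide)
    have e3 := hv 3 (by decide)
    have e4 := hv 4 (by decide)
    have e5 := hv 5 (by decide)
    rw [e0, e1, e2]
    have b1 := fin4_ne G.rw' G.rA G.wA
    have b2 := fin4_ne G.rw' G.rB G.wB
    have b3 := fin4_ne G.rw' G.rC G.wC
    rw [e3] at b1
    rw [e4] at b2
    rw [e5] at b3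
    exact par_w _ _ (fin4_ne F.rx F.ry F.xy) _ (fin4_ne F.rx F.rz F.xz)
      (fin4_ne F.ry F.rz F.yz) _ (fin4_ne F.rA F.ry F.Ay) (fin4_ne F.rA F.rz F.Az) _
      (fin4_ne F.rB F.rx F.Bx) (fin4_ne F.rB F.rz F.Bz) _ (fin4_ne F.rC F.rx F.Cx)
      (fin4_ne F.rC F.ry F.Cy) _ (fin4_ne F.rw' F.rA F.wA) (fin4_ne F.rw' F.rB F.wB)
      (fin4_ne F.rw' F.rC F.wC) _ b1 b2 b3

/-- **the sun graph is not `(4,1)`-mixing** -/
theorem not_mixing_sun : ¬ Mixing sun 4 1 := by
  intro h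
  have d4 : ∀ a b : ℤ, Rg 4 a → Rg 4 b → a ≠ b → D 4 1 a b := by
    intro a b ha hb hab
    rw [D_iff]
    unfold Rg at ha hb
    push_cast at *
    omega
  have r0 : Rg 4 0 := by unfold Rg; norm_num
  have r1 : Rg 4 1 := by unfold Rg; norm_num
  have r2 : Rg 4 2 := by unfold Rg; norm_num
  have r3 : Rg 4 3 := by unfold Rg; norm_num
  have k1 : K4 4 1 0 1 2 3 :=
    ⟨r0, r1, r2, r3, d4 _ _ r0 r1 (by norm_num), d4 _ _ r0 r2 (by norm_num),
      d4 _ _ r0 r3 (by norm_num), d4 _ _ r1 r2 (by norm_num), d4 _ _ r1 r3 (by norm_num),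
      d4 _ _ r2 r3 (by norm_num)⟩
  have k2 : K4 4 1 1 0 2 3 := k1.s01
  have hc := h _ _ (isCol_tup k1.good) (isCol_tup k2.good)
  have hinv : ∀ g, Relation.ReflTransGen (Move sun 4 1) (tup 0 1 2 0 1 2 3) g →
      inv (tup 0 1 2 0 1 2 3) = inv g := by
    intro g hg
    induction hg with
    | refl => rfl
    | tail _ hs ih => rw [ih]; exact inv_move hs
  have := hinv _ hc
  revert this
  decide

end frozen

lemma not_bipartite : ¬ sun.Colorable 2 := by
  rintro ⟨c⟩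
  have h1 := c.valid (show sun.Adj 0 1 by decide)
  have h2 := c.valid (show sun.Adj 0 2 by decide)
  have h3 := c.valid (show sun.Adj 1 2 by decide)
  have h : ∀ a b d : Fin 2, a ≠ b → a ≠ d → b ≠ d → False := by decide
  exact h _ _ _ h1 h2 h3

end Pool.Agent.H136.SunMixing
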